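import Pool.Agent.Q8.GE.Asm

/-!
Maximal rank of all maps `ℓ ^ k : A_i → A_{i+k}` except the ones from or to the middle range: the
theorem.
-/

open MvPolynomial
open Pool.Agent.W515.SLP (AnnP Deg annP_zero annP_of_gt annP_of_homog lin)
open H503R3.QCI (Homog NZD Reg isSocleDegree_ci gr mem_gr comp_mul comp_mul_of_lt homog_span)
open TH130CI
open Pool.Agent.Y204.LF (OpenC reg_prefix openC_nzd exists_lin_of_reg)

namespace Pool.Agent.Q8.GE

open Module
open Pool.Agent.Q8.GC
open Pool.Agent.Q8.GD (core3)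

variable {K : Type*} [Field K]

lemma span_last {n N : ℕ} (a : Fin (N + 1) → MvPolynomial (Fin n) K) :
    Ideal.span (Set.range a) = Ideal.span (Set.range fun i : Fin N => a i.castSucc) ⊔
      Ideal.span {a (Fin.last N)} := by
  apply le_antisymm
  · rw [Ideal.span_le]
    rintro _ ⟨i, rfl⟩
    refine Fin.lastCases ?_ (fun j => ?_) i
    · exact Ideal.mem_sup_right (Ideal.subset_span rfl)
    · exact Ideal.mem_sup_left (Ideal.subset_span ⟨j, rfl⟩)
  · apply sup_le
    · rw [Ideal.span_le]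
      rintro _ ⟨i, rfl⟩
      exact Ideal.subset_span ⟨_, rfl⟩
    · rw [Ideal.span_singleton_le_iff_mem]
      exact Ideal.subset_span ⟨_, rfl⟩

lemma nzd_last {n N : ℕ} {a : Fin (N + 1) → MvPolynomial (Fin n) K} (hreg : Reg a) :
    NZD (Ideal.span (Set.range fun i : Fin N => a i.castSucc)) (a (Fin.last N)) := by
  have h1 := hreg (Fin.last N)
  have h2 : a '' {j | j < Fin.last N} = Set.range fun i : Fin N => a i.castSucc := by
    ext x
    constructor
    · rintro ⟨j, hj, rfl⟩
      obtain ⟨k, rfl⟩ := Fin.eq_castSucc_of_ne_last (ne_of_lt hj)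
      exact ⟨k, rfl⟩
    · rintro ⟨k, rfl⟩
      exact ⟨Fin.castSucc k, Fin.castSucc_lt_last k, rfl⟩
  rwa [h2] at h1

lemma em_castSucc {N : ℕ} (e : Fin (N + 1) → ℕ) {i : ℕ} (hi : i < N) :
    Pool.Agent.Y204.LF.em (fun i : Fin N => e i.castSucc) i = Pool.Agent.Y204.LF.em e i := by
  unfold Pool.Agent.Y204.LF.em
  rw [dif_pos hi, dif_pos (by omega)]
  rfl

theorem goodInj [CharZero K] {N : ℕ} {a : Fin (N + 1) → MvPolynomial (Fin (N + 1)) K}
    {e : Fin (N + 1) → ℕ} (ha : ∀ i, (a i).IsHomogeneous (e i)) (he : ∀ i, 2 ≤ e i)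
    (hreg : Reg a) (hmono : Monotone e) {D : ℕ} (hD2 : 2 ≤ D) (hD : ∀ i : Fin N, e i.castSucc ≤ D)
    {T : Prop} (hpow : T → ∀ k, 1 ≤ k → k + 2 ≤ N →
      k * (D - 1) ≤ ∑ i ∈ Finset.range (k + 1), Pool.Agent.Y204.LF.em e i ∨
      finrank K (Submodule.span K {z : Fin (N + 1) → K |
        (lin z : MvPolynomial (Fin (N + 1)) K) ^ (k * (D - 1)) ∈ Ideal.span (Set.range a)}) ≤ k)
    (hrd : ∑ i : Fin N, (e i.castSucc - 1) ≤ e (Fin.last N) + 1) :
    ∃ q : Fin (N + 1) → K, ∀ i, 2 * i ≤ ∑ i, (e i - 1) →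
      (∑ i : Fin N, (e i.castSucc - 1) ≤ i + 1 ∨
        T ∧ (i ≤ 1 ∨ ∑ i : Fin N, (e i.castSucc - 1) ≤ i + 2)) →
      Inj (Ideal.span (Set.range a)) (∑ i, (e i - 1) - 2 * i) i q := by
  classical
  have he1 : ∀ i, 1 ≤ e i := fun i => (by omega : 1 ≤ 2).trans (he i)
  obtain ⟨φ, hφ, hI⟩ := ci_gor ha he1 hreg
  set σ := ∑ i, (e i - 1) with hσ
  set r := ∑ i : Fin N, (e i.castSucc - 1) with hr
  set d := e (Fin.last N) with hd
  have hσr : σ = r + (d - 1) := by rw [hσ, Fin.sum_univ_castSucc]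
  have hd2 : 2 ≤ d := he _
  set a' : Fin N → MvPolynomial (Fin (N + 1)) K := fun i => a i.castSucc with ha'
  set e' : Fin N → ℕ := fun i => e i.castSucc with he'
  have ha'h : ∀ i, (a' i).IsHomogeneous (e' i) := fun i => ha _
  have he'1 : ∀ i, 1 ≤ e' i := fun i => he1 _
  have hreg' : Reg a' := reg_prefix (Nat.le_succ N) hreg
  set J := Ideal.span (Set.range a') with hJdef
  have hJ : Homog J := homog_J ha'h
  have hfJ : NZD J (a (Fin.last N)) := nzd_last hreg
  have hIJ : Ideal.span (Set.range a) = J ⊔ Ideal.span {a (Fin.last N)} := span_last a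
  set S : Set (Fin (N + 1) → K) := {q | NZD J (lin q)} with hS
  have hSo : OpenC S := openC_nzd J
  have hSJ : ∀ q ∈ S, NZD J (lin q) := fun q hq => hq
  have hSne : S.Nonempty := exists_lin_of_reg (Nat.lt_succ_self N) ha'h he'1 hreg'
  have hlin : ∀ z : Fin (N + 1) → K, (lin z : MvPolynomial (Fin (N + 1)) K) ∈ J → z = 0 := by
    intro z hz
    apply lin_notMem ha he hreg hmono
    rw [hIJ]
    exact Ideal.mem_sup_left hz
  -- the polynomials
  have hP : ∀ i, 2 * i ≤ σ → (r ≤ i + 1 ∨ T ∧ (i ≤ 1 ∨ r ≤ i + 2)) → i < r →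
      ∃ P : MvPolynomial (Fin (N + 1)) K,
      P ≠ 0 ∧ ∀ q, eval q P ≠ 0 → Inj (Ideal.span (Set.range a)) (σ - 2 * i) i q := by
    intro i hi hi2 hir
    obtain ⟨L, b, hb, hb1, hb2⟩ := exists_basis (Ideal.span (Set.range a)) i
    obtain ⟨P, hP1, hP2⟩ := det_iff hφ hI (k := σ - 2 * i) (i := i) (by omega) hb hb1 hb2
    refine ⟨P, ?_, fun q hq => (hP1 q).mp hq⟩
    by_cases hi1 : T ∧ i ≤ 1
    · -- degrees zero and one
      obtain ⟨hT, hi1⟩ := hi1
      have hSoc : Soc (Ideal.span (Set.range a)) σ := fun j w hw hj hXw =>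
        socle_ci _ a e ha he1 (sreg_of_reg ha he1 hreg) rfl j w hw hj hXw
      have h1 := ell_pow_ne hSoc (one_notMem ha he1 hreg) _ le_rfl
      obtain ⟨ψ, hψ⟩ := exists_cmap_ne (K := K) h1
      obtain ⟨q, hq1, hq2⟩ := core3 ha he hreg hmono (by omega) hD (hpow hT) hψ
      have hqσ : lin q ^ σ ∉ Ideal.span (Set.range a) := by
        intro hmem
        apply hq1
        rw [eval_cmap, map_pow, ev_ell, ← map_pow, Ideal.Quotient.eq_zero_iff_mem.mpr hmem, map_zero]
      have hinj : Inj (Ideal.span (Set.range a)) (σ - 2 * i) i q := by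
        intro g hg hgI
        rcases Nat.eq_zero_or_pos i with rfl | hpos
        · have hg' : g = C (coeff 0 g) := by
            rw [← totalDegree_eq_zero_iff_eq_C]
            exact Nat.le_zero.mp (IsHomogeneous.totalDegree_le hg)
          by_cases hc : coeff 0 g = 0
          · rw [hg', hc, map_zero]
            exact Ideal.zero_mem _
          · exfalso
            apply hqσ
            rw [hg', Nat.mul_zero, Nat.sub_zero] at hgI
            have h3 := (Ideal.span (Set.range a)).mul_mem_left (C (coeff 0 g)⁻¹) hgI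
            have h4 : C (coeff 0 g)⁻¹ * (lin q ^ σ * C (coeff 0 g)) = lin q ^ σ := by
              rw [mul_comm (lin q ^ σ), ← mul_assoc, ← map_mul, inv_mul_cancel₀ hc, map_one,
                one_mul]
            rwa [h4] at h3
        · obtain rfl : i = 1 := by omega
          obtain ⟨z, rfl⟩ := eq_lin hg
          have hz : z = 0 := hq2 z hgI
          rw [hz]
          have : (lin (0 : Fin (N + 1) → K) : MvPolynomial (Fin (N + 1)) K) = 0 :=
            map_zero (linL K (N + 1))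
          rw [this]
          exact Ideal.zero_mem _
      intro h0
      exact (hP1 q).mpr hinj (by rw [h0, map_zero])
    · have hi2' : r ≤ i + 2 := by
        rcases hi2 with h | ⟨h, h'⟩
        · omega
        · rcases h' with h'' | h''
          · exact absurd ⟨h, h''⟩ hi1
          · exact h''
      intro h0
      obtain ⟨u, hu, hukI⟩ := hP2 h0
      have hb1' : ∀ c : Fin L → K, ∑ j, c j • b j ∈ J ⊔ Ideal.span {a (Fin.last N)} → c = 0 := by
        rw [← hIJ]; exact hb1
      have hukI' : ∀ q, lin q ^ (σ - 2 * i) * ∑ l, eval q (u l) • b l ∈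
          J ⊔ Ideal.span {a (Fin.last N)} := by
        rw [← hIJ]; exact hukI
      rcases Nat.lt_or_ge (i + 1) r with h1 | h1
      · -- `i = r - 2`
        have hir2 : i + 2 = r := by omega
        have hT : T := by
          rcases hi2 with h | h
          · omega
          · exact h.1
        have hex := exists_m hJ (ha (Fin.last N)) hfJ hlin hSo hSJ hSne (k := σ - 2 * i) (i := i)
          (by omega) hb hb1' hu hukI'
        refine coreN ha'h (fun i => he _) hreg' (fun i j hij => hmono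
          (Fin.castSucc_le_castSucc_iff.mpr hij)) hD2 hD ?_ (ha (Fin.last N)) hfJ
          (k := σ - 2 * i) (by omega) (show r + (σ - 2 * i) = d + 3 by omega) hSo hSJ hSne hex
        intro k hk1 hk2
        rcases hpow hT k hk1 hk2 with h | h
        · left
          refine h.trans (le_of_eq (Finset.sum_congr rfl fun i hi => ?_))
          rw [Finset.mem_range] at hi
          exact (em_castSucc e (by omega)).symm
        · right
          refine le_trans (Submodule.finrank_mono (Submodule.span_mono ?_)) h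
          intro z hz
          change lin z ^ (k * (D - 1)) ∈ Ideal.span (Set.range a)
          rw [hIJ]
          exact Ideal.mem_sup_left hz
      · -- `i = r - 1`
        have hir1 : i + 1 = r := by omega
        rcases Nat.eq_zero_or_pos (σ - 2 * i) with hk0 | hk0
        · -- the exponent is zero
          obtain ⟨l0, hl0⟩ : ∃ l0, u l0 ≠ 0 := by
            by_contra hcon
            push Not at hcon
            exact hu (funext hcon)
          obtain ⟨q, hq, hql⟩ := exists_generic hSo hSne hl0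
          apply hql
          have h2 := hukI q
          rw [hk0, pow_zero, one_mul] at h2
          exact congrFun (hb1 (fun l => eval q (u l)) h2) l0
        · exact no_kernel0 ha'h he'1 hreg' (ha (Fin.last N)) hfJ hSo hSJ hSne
            (k := σ - 2 * i) (i := i) (by omega) hk0 hir1 hb hb1' hu hukI'
  -- the common point
  choose! P hP0 hPinj using hP
  let Q : ℕ → MvPolynomial (Fin (N + 1)) K := fun i =>
    if 2 * i ≤ σ ∧ (r ≤ i + 1 ∨ T ∧ (i ≤ 1 ∨ r ≤ i + 2)) ∧ i < r then P i else 1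
  have hQ0 : ∀ i, Q i ≠ 0 := by
    intro i
    simp only [Q]
    split_ifs with h
    · exact hP0 i h.1 h.2.1 h.2.2
    · exact one_ne_zero
  obtain ⟨q, hq, hqQ⟩ := exists_generic hSo hSne (P := ∏ i ∈ Finset.range r, Q i)
    (Finset.prod_ne_zero_iff.mpr fun i _ => hQ0 i)
  refine ⟨q, fun i hi hi2 => ?_⟩
  rcases Nat.lt_or_ge i r with hir | hir
  · apply hPinj i hi hi2 hir
    rw [map_prod, Finset.prod_ne_zero_iff] at hqQ
    have h1 := hqQ i (Finset.mem_range.mpr hir)
    simp only [Q] at h1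
    rwa [if_pos ⟨hi, hi2, hir⟩] at h1
  · intro g hg hgI
    rw [hIJ] at hgI ⊢
    apply Ideal.mem_sup_left
    have hhom : (lin q ^ (σ - 2 * i) * g : MvPolynomial (Fin (N + 1)) K).IsHomogeneous
        (σ - 2 * i + i) := by
      have h1 := ((lin_homog q).pow (σ - 2 * i)).mul hg
      rwa [one_mul] at h1
    rcases sup_comp' hJ (ha (Fin.last N)) hhom hgI with h1 | h1
    · exfalso
      have h2 : d ≤ σ - 2 * i + i := h1.1
      omega
    · exact nzd_pow (hSJ q hq) _ _ h1

/-- **Maximal rank outside the middle range.** -/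
theorem maps4 [CharZero K] {N : ℕ} {a : Fin (N + 1) → MvPolynomial (Fin (N + 1)) K}
    {e : Fin (N + 1) → ℕ} (ha : ∀ i, (a i).IsHomogeneous (e i)) (he : ∀ i, 2 ≤ e i)
    (hreg : Reg a) (hmono : Monotone e) {D : ℕ} (hD2 : 2 ≤ D) (hD : ∀ i : Fin N, e i.castSucc ≤ D)
    {T : Prop} (hpow : T → ∀ k, 1 ≤ k → k + 2 ≤ N →
      k * (D - 1) ≤ ∑ i ∈ Finset.range (k + 1), Pool.Agent.Y204.LF.em e i ∨
      finrank K (Submodule.span K {z : Fin (N + 1) → K |
        (lin z : MvPolynomial (Fin (N + 1)) K) ^ (k * (D - 1)) ∈ Ideal.span (Set.range a)}) ≤ k)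
    (hrd : ∑ i : Fin N, (e i.castSucc - 1) ≤ e (Fin.last N) + 1) :
    ∃ ℓ : MvPolynomial (Fin (N + 1)) K, ℓ.IsHomogeneous 1 ∧ ∀ i k : ℕ,
      ((∑ j : Fin N, (e j.castSucc - 1) ≤ i + 1 ∧ i + k ≤ e (Fin.last N)) ∨
        T ∧ (i ≤ 1 ∨ ∑ j, (e j - 1) ≤ i + k + 1 ∨
        (∑ j : Fin N, (e j.castSucc - 1) ≤ i + 2 ∧ i + k ≤ e (Fin.last N) + 1))) →
        (∀ g ∈ homogeneousSubmodule (Fin (N + 1)) K i,
          ℓ ^ k * g ∈ Ideal.span (Set.range a) → g ∈ Ideal.span (Set.range a)) ∨
        (∀ h ∈ homogeneousSubmodule (Fin (N + 1)) K (i + k),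
          ∃ g ∈ homogeneousSubmodule (Fin (N + 1)) K i,
            h - ℓ ^ k * g ∈ Ideal.span (Set.range a)) := by
  have he1 : ∀ i, 1 ≤ e i := fun i => (by omega : 1 ≤ 2).trans (he i)
  obtain ⟨q, hq⟩ := goodInj ha he hreg hmono hD2 hD hpow hrd
  obtain ⟨φ, hφ, hI⟩ := ci_gor ha he1 hreg
  have hσr : ∑ i, (e i - 1) = ∑ i : Fin N, (e i.castSucc - 1) + (e (Fin.last N) - 1) := by
    rw [Fin.sum_univ_castSucc]
  have hd2 := he (Fin.last N)
  -- injectivity with smaller exponents
  have hq' : ∀ i k, 2 * i + k ≤ ∑ i, (e i - 1) →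
      (∑ i : Fin N, (e i.castSucc - 1) ≤ i + 1 ∨
        T ∧ (i ≤ 1 ∨ ∑ i : Fin N, (e i.castSucc - 1) ≤ i + 2)) →
      Inj (Ideal.span (Set.range a)) k i q := by
    intro i k h1 h2 g hg hgI
    apply hq i (by omega) h2 g hg
    obtain ⟨j, hj⟩ : ∃ j, ∑ i, (e i - 1) - 2 * i = j + k := ⟨∑ i, (e i - 1) - 2 * i - k, by omega⟩
    rw [hj, pow_add, mul_assoc]
    exact Ideal.mul_mem_left _ _ hgI
  refine ⟨lin q, lin_homog q, fun i k hik => ?_⟩
  rcases Nat.lt_or_ge (∑ i, (e i - 1)) (i + k) with h1 | h1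
  · right
    intro h hh
    refine ⟨0, Submodule.zero_mem _, ?_⟩
    rw [mul_zero, sub_zero, hI]
    exact annP_of_gt hφ h1 hh
  rcases Nat.lt_or_ge (∑ i, (e i - 1)) (2 * i + k) with h2 | h2
  · right
    intro h hh
    obtain ⟨g, hg, hgh⟩ := surj_of_inj hφ (lin_homog q) h1 (fun u hu hlu => by
      have h3 : lin q ^ k * u ∈ Ideal.span (Set.range a) := by rw [hI]; exact hlu
      have h4 := hq' _ k (by omega) (by
        rcases hik with h | ⟨hT, h⟩
        · left; omega
        · right; exact ⟨hT, by omega⟩) u hu h3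
      rw [hI] at h4
      exact h4) hh
    refine ⟨g, hg, ?_⟩
    rw [hI]
    exact hgh
  · left
    intro g hg hgI
    exact hq' i k h2 (by
      rcases hik with h | ⟨hT, h⟩
      · left; omega
      · right; exact ⟨hT, by omega⟩) g hg hgI

end Pool.Agent.Q8.GE
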