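import Pool.Agent.Q8.GE.KerN
import Pool.Agent.Q8.GD.Main3
import Pool.Agent.TH130.CI.Len

/-!
Maximal rank of all maps `ℓ ^ k : A_i → A_{i+k}` except the ones from or to the middle range.
-/

open MvPolynomial
open Pool.Agent.W515.SLP (AnnP Deg annP_zero annP_of_gt annP_of_homog lin)
open H503R3.QCI (Homog NZD Reg isSocleDegree_ci gr mem_gr comp_mul comp_mul_of_lt homog_span)
open TH130CI
open Pool.Agent.Y204.LF (OpenC reg_prefix openC_nzd exists_lin_of_reg)

namespace Pool.Agent.Q8.GE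

open Module
open Pool.Agent.Q8.GC
open Pool.Agent.Q8.GD (core3)

variable {K : Type*} [Field K]

section

variable {n : ℕ} {J : Ideal (MvPolynomial (Fin n) K)}

/-- a generic kernel in the degree of the linear forms -/
theorem exists_m [Infinite K] (hJ : Homog J) {f : MvPolynomial (Fin n) K} {d : ℕ}
    (hf : f.IsHomogeneous d) (hfJ : NZD J f)
    (hlin : ∀ z : Fin n → K, (lin z : MvPolynomial (Fin n) K) ∈ J → z = 0)
    {S : Set (Fin n → K)} (hS : OpenC S) (hSJ : ∀ q ∈ S, NZD J (lin q)) (hne : S.Nonempty)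
    {k i L : ℕ} (hki : k + i = d + 1) {b : Fin L → MvPolynomial (Fin n) K}
    (hb : ∀ j, (b j).IsHomogeneous i)
    (hb1 : ∀ c : Fin L → K, ∑ j, c j • b j ∈ J ⊔ Ideal.span {f} → c = 0)
    {u : Fin L → MvPolynomial (Fin n) K} (hu : u ≠ 0)
    (h : ∀ q, lin q ^ k * ∑ l, eval q (u l) • b l ∈ J ⊔ Ideal.span {f}) :
    ∃ m : Fin n → MvPolynomial (Fin n) K, m ≠ 0 ∧ ∀ q ∈ S, f * lin (vl q m) ∈ Jc J q k := by
  classical
  let Λ : (Fin n → K) →ₗ[K] (MvPolynomial (Fin n) K ⧸ J) :=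
    (Ideal.Quotient.mkₐ K J).toLinearMap ∘ₗ LinearMap.mulLeft K f ∘ₗ linL K n
  have hΛ : ∀ z, Λ z = Ideal.Quotient.mk J (f * lin z) := fun z => rfl
  have hker : LinearMap.ker Λ = ⊥ := by
    rw [LinearMap.ker_eq_bot']
    intro z hz
    rw [hΛ, Ideal.Quotient.eq_zero_iff_mem] at hz
    exact hlin z (hfJ _ hz)
  obtain ⟨g, hg⟩ := Λ.exists_leftInverse_of_injective hker
  have hg' : ∀ z, g (Λ z) = z := fun z => LinearMap.congr_fun hg z
  let ψ : Fin n → MvPolynomial (Fin n) K →ₗ[K] K := fun j =>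
    LinearMap.proj j ∘ₗ g ∘ₗ (Ideal.Quotient.mkₐ K J).toLinearMap
  have hψ : ∀ j w, ψ j w = g (Ideal.Quotient.mk J w) j := fun j w => rfl
  choose Q hQ using fun (j : Fin n) (l : Fin L) => exists_poly (ψ j) k (b l)
  let m : Fin n → MvPolynomial (Fin n) K := fun j => ∑ l, u l * Q j l
  have hm : ∀ q, vl q m = g (Ideal.Quotient.mk J (lin q ^ k * ∑ l, eval q (u l) • b l)) := by
    intro q
    ext j
    rw [← hψ, Finset.mul_sum, map_sum]
    change eval q (∑ l, u l * Q j l) = _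
    rw [map_sum]
    refine Finset.sum_congr rfl fun l _ => ?_
    rw [map_mul, hQ, mul_smul_comm, map_smul, smul_eq_mul]
  have hU : ∀ q, (∑ l, eval q (u l) • b l : MvPolynomial (Fin n) K).IsHomogeneous i := fun q =>
    IsHomogeneous.sum _ _ _ fun l _ => (homogeneousSubmodule (Fin n) K i).smul_mem _ (hb l)
  have hz : ∀ q, lin q ^ k * ∑ l, eval q (u l) • b l - f * lin (vl q m) ∈ J := by
    intro q
    have hhom : (lin q ^ k * ∑ l, eval q (u l) • b l : MvPolynomial (Fin n) K).IsHomogeneous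
        (d + 1) := by
      have h1 := ((lin_homog q).pow k).mul (hU q)
      rwa [one_mul, hki] at h1
    obtain ⟨z, hz⟩ : ∃ z : Fin n → K,
        lin q ^ k * ∑ l, eval q (u l) • b l - f * lin z ∈ J := by
      rcases sup_comp' hJ hf hhom (h q) with ⟨h1, b1, hb1', hb1w⟩ | h1
      · rw [Nat.add_sub_cancel_left] at hb1'
        obtain ⟨z, rfl⟩ := eq_lin hb1'
        exact ⟨z, hb1w⟩
      · refine ⟨0, ?_⟩
        have h2 : (lin (0 : Fin n → K) : MvPolynomial (Fin n) K) = 0 := map_zero (linL K n)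
        rw [h2, mul_zero, sub_zero]
        exact h1
    have h2 : Ideal.Quotient.mk J (lin q ^ k * ∑ l, eval q (u l) • b l) = Λ z := by
      rw [hΛ, Ideal.Quotient.mk_eq_mk_iff_sub_mem]
      exact hz
    rw [hm, h2, hg']
    exact hz
  refine ⟨m, ?_, fun q _ => ?_⟩
  · intro hm0
    obtain ⟨l0, hl0⟩ : ∃ l0, u l0 ≠ 0 := by
      by_contra hcon
      push Not at hcon
      exact hu (funext hcon)
    obtain ⟨q, hq, hql⟩ := exists_generic hS hne hl0
    apply hql
    have h1 := hz q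
    have h2 : vl q m = 0 := by
      rw [hm0]
      ext j
      exact map_zero (eval q)
    have h3 : (lin (0 : Fin n → K) : MvPolynomial (Fin n) K) = 0 := map_zero (linL K n)
    rw [h2, h3, mul_zero, sub_zero] at h1
    have h4 := nzd_pow (hSJ q hq) k _ h1
    exact congrFun (hb1 (fun l => eval q (u l)) (Ideal.mem_sup_left h4)) l0
  · refine mem_Jc.mpr ⟨∑ l, eval q (u l) • b l, ?_⟩
    have h1 := J.neg_mem (hz q)
    rwa [neg_sub] at h1

end

section

variable [CharZero K] {N : ℕ} {a : Fin N → MvPolynomial (Fin (N + 1)) K} {e : Fin N → ℕ}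

/-- the generic kernel in degree zero vanishes -/
theorem no_kernel0 (ha : ∀ i, (a i).IsHomogeneous (e i)) (he : ∀ i, 1 ≤ e i) (hreg : Reg a)
    {f : MvPolynomial (Fin (N + 1)) K} {d : ℕ} (hf : f.IsHomogeneous d)
    (hfJ : NZD (Ideal.span (Set.range a)) f)
    {S : Set (Fin (N + 1) → K)} (hS : OpenC S)
    (hSJ : ∀ q ∈ S, NZD (Ideal.span (Set.range a)) (lin q)) (hne : S.Nonempty)
    {k i L : ℕ} (hki : k + i = d) (hk : 1 ≤ k) (hir : i + 1 = ∑ i, (e i - 1))
    {b : Fin L → MvPolynomial (Fin (N + 1)) K}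
    (hb : ∀ j, (b j).IsHomogeneous i)
    (hb1 : ∀ c : Fin L → K, ∑ j, c j • b j ∈ Ideal.span (Set.range a) ⊔ Ideal.span {f} → c = 0)
    {u : Fin L → MvPolynomial (Fin (N + 1)) K} (hu : u ≠ 0)
    (h : ∀ q, lin q ^ k * ∑ l, eval q (u l) • b l ∈ Ideal.span (Set.range a) ⊔ Ideal.span {f}) :
    False := by
  classical
  have hJ := homog_J ha
  obtain ⟨l0, hl0⟩ : ∃ l0, u l0 ≠ 0 := by
    by_contra hcon
    push Not at hcon
    exact hu (funext hcon)
  refine t0 ha he hreg hf hfJ (openC_eval hS (u l0)) (fun q hq => hSJ q hq.1) ?_ hk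
    (by omega) fun q hq => ?_
  · obtain ⟨q, hq, hql⟩ := exists_generic hS hne hl0
    exact ⟨q, hq, hql⟩
  · have hU : (∑ l, eval q (u l) • b l : MvPolynomial (Fin (N + 1)) K).IsHomogeneous i :=
      IsHomogeneous.sum _ _ _ fun l _ =>
        (homogeneousSubmodule (Fin (N + 1)) K i).smul_mem _ (hb l)
    have hhom : (lin q ^ k * ∑ l, eval q (u l) • b l :
        MvPolynomial (Fin (N + 1)) K).IsHomogeneous d := by
      have h1 := ((lin_homog q).pow k).mul hU
      rwa [one_mul, hki] at h1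
    have hnJ : lin q ^ k * ∑ l, eval q (u l) • b l ∉ Ideal.span (Set.range a) := by
      intro h1
      have h4 := nzd_pow (hSJ q hq.1) k _ h1
      exact hq.2 (congrFun (hb1 (fun l => eval q (u l)) (Ideal.mem_sup_left h4)) l0)
    rcases sup_comp' hJ hf hhom (h q) with ⟨h1, b1, hb1', hb1w⟩ | h1
    · rw [Nat.sub_self] at hb1'
      have hb1'' : b1 = C (coeff 0 b1) := by
        rw [← totalDegree_eq_zero_iff_eq_C]
        exact Nat.le_zero.mp hb1'.totalDegree_le
      have hc : coeff 0 b1 ≠ 0 := by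
        intro h0
        rw [hb1'', h0, map_zero, mul_zero, sub_zero] at hb1w
        exact hnJ hb1w
      rw [hb1''] at hb1w
      refine mem_Jc.mpr ⟨C (coeff 0 b1)⁻¹ * ∑ l, eval q (u l) • b l, ?_⟩
      have h3 := (Ideal.span (Set.range a)).mul_mem_left (-C (coeff 0 b1)⁻¹) hb1w
      have h4 : (C (coeff 0 b1)⁻¹ : MvPolynomial (Fin (N + 1)) K) * C (coeff 0 b1) = 1 := by
        rw [← map_mul, inv_mul_cancel₀ hc, map_one]
      convert h3 using 1
      linear_combination (-f) * h4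
    · exact absurd h1 hnJ

end

end Pool.Agent.Q8.GE
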