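import Pool.Agent.Q8.GE.Rel
import Pool.Agent.Q8.GC.Main

/-!
One-dimensional complete intersections: the socle in top degree and the identities of Gordan and
Noether for negative powers of the linear form.
-/

open MvPolynomial
open Pool.Agent.W515.SLP (AnnP Deg annP_zero annP_of_gt annP_of_homog lin)
open H503R3.QCI (Homog NZD Reg isSocleDegree_ci gr mem_gr comp_mul comp_mul_of_lt homog_span)
open TH130CI
open Pool.Agent.Y204.LF (OpenC reg_prefix)

namespace Pool.Agent.Q8.GE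

open Pool.Agent.Q8.GC

variable {K : Type*} [Field K]

section Setting

variable {N : ℕ} {a : Fin N → MvPolynomial (Fin (N + 1)) K} {e : Fin N → ℕ}

lemma homog_J (ha : ∀ i, (a i).IsHomogeneous (e i)) : Homog (Ideal.span (Set.range a)) :=
  homog_span (by rintro _ ⟨j, rfl⟩; exact ⟨e j, ha j⟩)

lemma nzd_pow {n : ℕ} {J : Ideal (MvPolynomial (Fin n) K)} {x : MvPolynomial (Fin n) K}
    (h : NZD J x) (c : ℕ) : NZD J (x ^ c) := by
  induction c with
  | zero =>
    intro y hy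
    rwa [pow_zero, one_mul] at hy
  | succ c ih =>
    intro y hy
    apply ih
    apply h
    rwa [← mul_assoc, ← pow_succ']

lemma span_snoc (q : Fin (N + 1) → K) (c : ℕ) :
    Ideal.span (Set.range (Fin.snoc a (lin q ^ c) : Fin (N + 1) → MvPolynomial (Fin (N + 1)) K)) =
      Jc (Ideal.span (Set.range a)) q c := by
  rw [range_snoc', Ideal.span_union]
  rfl

lemma snoc_homog (ha : ∀ i, (a i).IsHomogeneous (e i)) (q : Fin (N + 1) → K) (c : ℕ)
    (i : Fin (N + 1)) :
    ((Fin.snoc a (lin q ^ c) : Fin (N + 1) → MvPolynomial (Fin (N + 1)) K) i).IsHomogeneous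
      ((Fin.snoc e c : Fin (N + 1) → ℕ) i) := by
  refine Fin.lastCases ?_ (fun j => ?_) i
  · rw [Fin.snoc_last, Fin.snoc_last]
    have := (lin_homog q).pow c
    rwa [one_mul] at this
  · rw [Fin.snoc_castSucc, Fin.snoc_castSucc]
    exact ha j

lemma snoc_one_le (he : ∀ i, 1 ≤ e i) {c : ℕ} (hc : 1 ≤ c) (i : Fin (N + 1)) :
    1 ≤ (Fin.snoc e c : Fin (N + 1) → ℕ) i := by
  refine Fin.lastCases ?_ (fun j => ?_) i
  · rw [Fin.snoc_last]; exact hc
  · rw [Fin.snoc_castSucc]; exact he j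

lemma snoc_sum (c : ℕ) : ∑ i, ((Fin.snoc e c : Fin (N + 1) → ℕ) i - 1) =
    ∑ i, (e i - 1) + (c - 1) := by
  rw [Fin.sum_univ_castSucc]
  simp only [Fin.snoc_castSucc, Fin.snoc_last]

lemma reg_snoc_pow (hreg : Reg a) {q : Fin (N + 1) → K}
    (hq : NZD (Ideal.span (Set.range a)) (lin q)) (c : ℕ) :
    Reg (Fin.snoc a (lin q ^ c) : Fin (N + 1) → MvPolynomial (Fin (N + 1)) K) :=
  reg_snoc hreg (nzd_pow hq c)

/-- the socle -/
lemma soc_c [Infinite K] (ha : ∀ i, (a i).IsHomogeneous (e i)) (he : ∀ i, 1 ≤ e i) (hreg : Reg a)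
    {q : Fin (N + 1) → K} (hq : NZD (Ideal.span (Set.range a)) (lin q)) {c m : ℕ}
    {w : MvPolynomial (Fin (N + 1)) K} (hw : w.IsHomogeneous m)
    (hm : m + 1 < ∑ i, (e i - 1) + c) (h : ∀ i, X i * w ∈ Jc (Ideal.span (Set.range a)) q c) :
    w ∈ Jc (Ideal.span (Set.range a)) q c := by
  rcases Nat.eq_zero_or_pos c with rfl | hc
  · rw [Jc, pow_zero, Ideal.span_singleton_one, sup_top_eq]
    exact Submodule.mem_top
  · rw [← span_snoc]
    refine socle_ci _ _ _ (snoc_homog ha q c) (snoc_one_le he hc)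
      (sreg_of_reg (snoc_homog ha q c) (snoc_one_le he hc) (reg_snoc_pow hreg hq c)) rfl m w hw
      ?_ ?_
    · rw [snoc_sum]; omega
    · rw [span_snoc]; exact h

lemma soc_lin [Infinite K] (ha : ∀ i, (a i).IsHomogeneous (e i)) (he : ∀ i, 1 ≤ e i)
    (hreg : Reg a) {q : Fin (N + 1) → K} (hq : NZD (Ideal.span (Set.range a)) (lin q)) {c m : ℕ}
    {w : MvPolynomial (Fin (N + 1)) K} (hw : w.IsHomogeneous m)
    (hm : m + 1 < ∑ i, (e i - 1) + c)
    (h : ∀ u : Fin (N + 1) → K, lin u * w ∈ Jc (Ideal.span (Set.range a)) q c) :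
    w ∈ Jc (Ideal.span (Set.range a)) q c := by
  apply soc_c ha he hreg hq hw hm
  intro i
  rw [← lin_single i]
  exact h _

lemma finite_E [Infinite K] (ha : ∀ i, (a i).IsHomogeneous (e i)) (he : ∀ i, 1 ≤ e i)
    (hreg : Reg a) {q : Fin (N + 1) → K} (hq : NZD (Ideal.span (Set.range a)) (lin q)) :
    Module.Finite K (MvPolynomial (Fin (N + 1)) K ⧸ J1 (Ideal.span (Set.range a)) q) := by
  apply finite_J1 (homog_J ha) (r := ∑ i, (e i - 1))
  intro m hm g hg
  have h1 := (isSocleDegree_ci _ _ (snoc_homog ha q 1) (snoc_one_le he le_rfl)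
    (reg_snoc_pow hreg hq 1)).2 m (by rw [snoc_sum]; omega) g hg
  rw [span_snoc, Jc, pow_one] at h1
  exact h1

lemma finrank_E [Infinite K] (ha : ∀ i, (a i).IsHomogeneous (e i)) (he : ∀ i, 1 ≤ e i)
    (hreg : Reg a) {q : Fin (N + 1) → K} (hq : NZD (Ideal.span (Set.range a)) (lin q)) :
    Module.finrank K (MvPolynomial (Fin (N + 1)) K ⧸ J1 (Ideal.span (Set.range a)) q) ≤
      Module.finrank K (homogeneousSubmodule (Fin (N + 1)) K (∑ i, (e i - 1))) := by
  apply finrank_J1 (homog_J ha)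
  intro m hm g hg
  have h1 := (isSocleDegree_ci _ _ (snoc_homog ha q 1) (snoc_one_le he le_rfl)
    (reg_snoc_pow hreg hq 1)).2 m (by rw [snoc_sum]; omega) g hg
  rw [span_snoc, Jc, pow_one] at h1
  exact h1

lemma one_notMem_J [Infinite K] (ha : ∀ i, (a i).IsHomogeneous (e i)) (he : ∀ i, 1 ≤ e i)
    (hreg : Reg a) {q : Fin (N + 1) → K} (hq : NZD (Ideal.span (Set.range a)) (lin q)) :
    (1 : MvPolynomial (Fin (N + 1)) K) ∉ Ideal.span (Set.range a) := by
  intro h1
  have h2 := one_notMem (snoc_homog ha q 1) (snoc_one_le he le_rfl) (reg_snoc_pow hreg hq 1)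
  apply h2
  rw [span_snoc]
  exact le_Jc h1

end Setting

section Main

variable [CharZero K] {N : ℕ} {a : Fin N → MvPolynomial (Fin (N + 1)) K} {e : Fin N → ℕ}
  (ha : ∀ i, (a i).IsHomogeneous (e i)) (he : ∀ i, 1 ≤ e i) (hreg : Reg a)
  {f : MvPolynomial (Fin (N + 1)) K} {d : ℕ} (hf : f.IsHomogeneous d)
  (hfJ : NZD (Ideal.span (Set.range a)) f)
  {S : Set (Fin (N + 1) → K)} (hS : OpenC S)
  (hSJ : ∀ q ∈ S, NZD (Ideal.span (Set.range a)) (lin q))

include ha he hreg hf hfJ hS hSJ in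
/-- **The function `ρ(f / q ^ c)` is not zero.** -/
theorem t0 (hne : S.Nonempty) {c : ℕ} (hc : 1 ≤ c) (hcd : d < ∑ i, (e i - 1) + c)
    (h : ∀ q ∈ S, f ∈ Jc (Ideal.span (Set.range a)) q c) : False := by
  have hJ := homog_J ha
  have h1 : ∀ k, ∀ q ∈ S, f ∈ Jc (Ideal.span (Set.range a)) q (c + k) := by
    intro k
    induction k with
    | zero => exact h
    | succ k ih =>
      intro q hq
      apply soc_lin ha he hreg (hSJ q hq) hf (by omega)
      intro u
      exact rel0 hJ hS hq (hSJ q hq) (finite_E ha he hreg (hSJ q hq)) hf (by omega) ih u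
  obtain ⟨q, hq⟩ := hne
  have h2 := mem_of_Jc hJ hf (by omega) (h1 (d + 1) q hq)
  apply one_notMem_J ha he hreg (hSJ q hq)
  apply hfJ
  rwa [mul_one]

include ha he hreg hf hS hSJ in
/-- **Gordan–Noether identities.** -/
theorem gnN {k : ℕ} (hk : 1 ≤ k) (hkd : d + 3 ≤ ∑ i, (e i - 1) + k)
    {m : Fin (N + 1) → MvPolynomial (Fin (N + 1)) K}
    (h : ∀ q ∈ S, f * lin (vl q m) ∈ Jc (Ideal.span (Set.range a)) q k) :
    ∀ b, ∀ q ∈ S, f * lin (vl q m) ^ (b + 1) ∈ Jc (Ideal.span (Set.range a)) q (k + b) := by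
  have hJ := homog_J ha
  intro b
  induction b with
  | zero => intro q hq; simpa using h q hq
  | succ b ih =>
    intro q hq
    apply soc_lin ha he hreg (hSJ q hq) (hom_fp hf _ _) (by omega)
    intro u
    have h1 := rel hJ hS hq (hSJ q hq) (finite_E ha he hreg (hSJ q hq)) hf ih u
    apply nat_mem (N := k + b) (by omega)
    have h2 := (Jc (Ideal.span (Set.range a)) q (k + b + 1)).mul_mem_left (lin (vl q m)) h1
    have h3 := (Jc (Ideal.span (Set.range a)) q (k + b + 1)).mul_mem_left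
      (((b + 1 : ℕ) : MvPolynomial (Fin (N + 1)) K) * lin (MM q m u)) (Jc_mul (ih q hq))
    have h4 := Ideal.sub_mem _ h3 h2
    have e1 : ∀ A B x y z w s t : MvPolynomial (Fin (N + 1)) K,
        B * (w * (x * y ^ (b + 1 + 1))) = A * t * (z * (x * y ^ (b + 1))) -
          y * (A * (z * (x * y ^ b * t)) - B * (x * y ^ (b + 1) * w)) := by
      intro A B x y z w s t
      ring
    rw [e1 ((b + 1 : ℕ) : MvPolynomial (Fin (N + 1)) K) _ _ _ (lin q) _ 0 (lin (MM q m u))]
    exact h4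

include ha he hreg hf hS hSJ in
theorem dd_memN {k : ℕ} (hk : 1 ≤ k) (hkd : d + 3 ≤ ∑ i, (e i - 1) + k)
    {m r : Fin (N + 1) → MvPolynomial (Fin (N + 1)) K}
    (h : ∀ q ∈ S, f * lin (vl q m) ∈ Jc (Ideal.span (Set.range a)) q k)
    (hr : ∀ q ∈ S, f * lin (vl q r) ∈ Jc (Ideal.span (Set.range a)) q k) :
    ∀ q ∈ S, f * lin (vl q (dd r m)) ∈ Jc (Ideal.span (Set.range a)) q k := by
  have hJ := homog_J ha
  intro q hq
  have h0 : ∀ u, lin q * (f * lin (MM q m u)) - (k : MvPolynomial (Fin (N + 1)) K) *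
      (f * lin (vl q m) * lin u) ∈ Jc (Ideal.span (Set.range a)) q (k + 1) := by
    intro u
    have h1 := rel hJ hS hq (hSJ q hq) (finite_E ha he hreg (hSJ q hq)) hf (b := 0) (c := k)
      (m := m) (fun q hq => by rw [zero_add, pow_one]; exact h q hq) u
    convert h1 using 1
    push_cast
    ring
  have h1 : f * lin (vl q m) * lin (vl q r) ∈ Jc (Ideal.span (Set.range a)) q (k + 1) := by
    apply soc_lin ha he hreg (hSJ q hq) ((hf.mul (lin_homog _)).mul (lin_homog _)) (by omega)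
    intro u
    apply nat_mem (N := k) (by omega)
    have h2 := (Jc (Ideal.span (Set.range a)) q (k + 1)).mul_mem_left (lin (vl q r)) (h0 u)
    have h3 := (Jc (Ideal.span (Set.range a)) q (k + 1)).mul_mem_left (lin (MM q m u))
      (Jc_mul (hr q hq))
    have h4 := Ideal.sub_mem _ h3 h2
    convert h4 using 1
    ring
  have h2 := h0 (vl q r)
  rw [MM_vl] at h2
  apply Jc_cancel (hSJ q hq)
  have h3 := Ideal.add_mem _ h2
    ((Jc (Ideal.span (Set.range a)) q (k + 1)).mul_mem_left (k : MvPolynomial (Fin (N + 1)) K) h1)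
  rwa [sub_add_cancel] at h3

include ha he hreg hf hS hSJ in
theorem dd_ellN {k : ℕ} {m : Fin (N + 1) → MvPolynomial (Fin (N + 1)) K}
    (h : ∀ q ∈ S, f * lin (vl q m) ∈ Jc (Ideal.span (Set.range a)) q k) :
    ∀ q ∈ S, f * lin (vl q (dd (fun j => X j) m)) ∈ Jc (Ideal.span (Set.range a)) q k := by
  have hJ := homog_J ha
  intro q hq
  have h1 := rel hJ hS hq (hSJ q hq) (finite_E ha he hreg (hSJ q hq)) hf (b := 0) (c := k)
      (m := m) (fun q hq => by rw [zero_add, pow_one]; exact h q hq) (vl q (fun j => X j))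
  rw [MM_vl, vl_X] at h1
  apply Jc_cancel (hSJ q hq)
  have h3 := Ideal.add_mem _ h1
    ((Jc (Ideal.span (Set.range a)) q (k + 1)).mul_mem_left (k : MvPolynomial (Fin (N + 1)) K)
      (Jc_mul (h q hq)))
  convert h3 using 1
  push_cast
  ring

omit [CharZero K] in
lemma lin_comb {n : ℕ} (q : Fin n → K) (P Q : MvPolynomial (Fin n) K)
    (w m : Fin n → MvPolynomial (Fin n) K) :
    (lin (vl q fun j => P * w j - Q * m j) : MvPolynomial (Fin n) K) =
      C (eval q P) * lin (vl q w) - C (eval q Q) * lin (vl q m) := by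
  simp only [lin, Finset.mul_sum, ← Finset.sum_sub_distrib]
  refine Finset.sum_congr rfl fun j _ => ?_
  have h1 : vl q (fun j => P * w j - Q * m j) j = eval q P * vl q w j - eval q Q * vl q m j := by
    simp only [vl, map_sub, map_mul]
  rw [h1, map_sub, map_mul, map_mul]
  ring

include ha he hreg hf hS hSJ in
/-- **A solution of minimal support.** -/
theorem exists_minN {k : ℕ} (hk : 1 ≤ k) (hkd : d + 3 ≤ ∑ i, (e i - 1) + k)
    (h : ∃ m : Fin (N + 1) → MvPolynomial (Fin (N + 1)) K, m ≠ 0 ∧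
      ∀ q ∈ S, f * lin (vl q m) ∈ Jc (Ideal.span (Set.range a)) q k) :
    ∃ (m : Fin (N + 1) → MvPolynomial (Fin (N + 1)) K) (j0 : Fin (N + 1)), m j0 ≠ 0 ∧
      (∀ q ∈ S, f * lin (vl q m) ∈ Jc (Ideal.span (Set.range a)) q k) ∧
      (∀ j, m j0 * dd m m j = dd m m j0 * m j) ∧
      (∀ j, m j0 * dd (fun j => X j) m j = dd (fun j => X j) m j0 * m j) := by
  classical
  let P : ℕ → Prop := fun l => ∃ m : Fin (N + 1) → MvPolynomial (Fin (N + 1)) K,
    (m ≠ 0 ∧ ∀ q ∈ S, f * lin (vl q m) ∈ Jc (Ideal.span (Set.range a)) q k) ∧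
      (Finset.univ.filter fun j => m j ≠ 0).card = l
  have hP : ∃ l, P l := by
    obtain ⟨m, hm⟩ := h
    exact ⟨_, m, hm, rfl⟩
  obtain ⟨m, ⟨hm0, hm⟩, hcard⟩ := Nat.find_spec hP
  have hmin : ∀ w : Fin (N + 1) → MvPolynomial (Fin (N + 1)) K,
      (∀ q ∈ S, f * lin (vl q w) ∈ Jc (Ideal.span (Set.range a)) q k) →
      (Finset.univ.filter fun j => w j ≠ 0).card < (Finset.univ.filter fun j => m j ≠ 0).card →
      w = 0 := by
    intro w hw hlt
    by_contra hw0
    rw [hcard] at hlt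
    exact Nat.find_min hP hlt ⟨w, ⟨hw0, hw⟩, rfl⟩
  obtain ⟨j0, hj0⟩ : ∃ j0, m j0 ≠ 0 := by
    by_contra hcon
    push Not at hcon
    exact hm0 (funext hcon)
  have key : ∀ w : Fin (N + 1) → MvPolynomial (Fin (N + 1)) K,
      (∀ q ∈ S, f * lin (vl q w) ∈ Jc (Ideal.span (Set.range a)) q k) →
      (∀ j, m j = 0 → w j = 0) → ∀ j, m j0 * w j = w j0 * m j := by
    intro w hw hsup j
    have h1 := hmin (fun j => m j0 * w j - w j0 * m j) (by
      intro q hq
      rw [lin_comb]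
      have h2 := Ideal.sub_mem _ (Ideal.mul_mem_left _ (C (eval q (m j0))) (hw q hq))
        (Ideal.mul_mem_left _ (C (eval q (w j0))) (hm q hq))
      convert h2 using 1
      ring) (by
      apply Finset.card_lt_card
      rw [Finset.ssubset_iff_of_subset]
      · refine ⟨j0, Finset.mem_filter.mpr ⟨Finset.mem_univ _, hj0⟩, ?_⟩
        intro hmem
        exact (Finset.mem_filter.mp hmem).2 (by ring)
      · intro j hj
        rw [Finset.mem_filter] at hj ⊢
        refine ⟨Finset.mem_univ _, fun hz => hj.2 ?_⟩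
        rw [hz, hsup j hz, mul_zero, mul_zero, sub_zero])
    exact sub_eq_zero.mp (congrFun h1 j)
  have hdd : ∀ (r : Fin (N + 1) → MvPolynomial (Fin (N + 1)) K) j, m j = 0 → dd r m j = 0 := by
    intro r j hj
    rw [dd]
    refine Finset.sum_eq_zero fun i _ => ?_
    rw [hj, map_zero, mul_zero]
  exact ⟨m, j0, hj0, hm, key _ (dd_memN ha he hreg hf hS hSJ hk hkd hm hm) (hdd m),
    key _ (dd_ellN ha he hreg hf hS hSJ hm) (hdd _)⟩

end Main

end Pool.Agent.Q8.GE
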