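import Pool.Agent.Q8.GC.Cnt

/-!
The staircase of the nonzero monomials `ℓ ^ (D - b) m ^ b`, again.
-/

namespace Pool.Agent.Q8.GE

open Finset
open Pool.Agent.Q8.GC

/-- **Counting lemma**, where the corners are only used in the degrees `≥ β`. -/
theorem count2 (σ β e : ℕ) (Z : ℕ → ℕ → Prop) (nu : ℕ → ℕ) (hβσ : β + 2 ≤ σ)
    (hZ0 : ∀ D, D + 1 ≤ σ → ¬ Z D 0)
    (hZ1 : ∀ b, 1 ≤ b → b + 1 ≤ σ → Z (σ - 1) b)
    (hβ : ¬ Z β β) (hβ' : ∀ D, β < D → D + 1 ≤ σ → Z D D)
    (hcor : ∀ D b x, β ≤ D → 1 ≤ x → x ≤ b → b ≤ D → D + 2 ≤ σ → ¬ Z D b →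
      (∀ b', x ≤ b' → b' ≤ b + 1 → Z (D + 1) b') → (b + 1 ≤ D → Z D (b + 1)) →
      σ - D ≤ nu (b + 1 - x) * e)
    (hnu : ∀ g h, g ≤ h → nu h ≤ nu g) :
    β ≤ ∑ g ∈ Finset.Icc 1 σ, (nu g * e - 1) := by
  classical
  set cnt : ℕ → ℕ := fun D => ((Finset.Icc 1 σ).filter fun g => σ - D ≤ nu g * e).card with hcnt
  have key : ∀ k D, D + k + 1 = σ → β ≤ D →
      Bf Z D ≤ 1 + ∑ D' ∈ Finset.Ico D (σ - 1), cnt D' := by
    intro k
    induction k with
    | zero =>
      intro D hD _
      have h1 : Bf Z D ≤ 1 := by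
        apply bf_le
        intro b hb1 hb2
        have := hZ1 b hb1 (by omega)
        rwa [show σ - 1 = D by omega] at this
      omega
    | succ k ih =>
      intro D hD hβD
      have ih1 := ih (D + 1) (by omega) (by omega)
      have h0 : Finset.Ico D (σ - 1) = insert D (Finset.Ico (D + 1) (σ - 1)) := by
        ext j
        simp only [Finset.mem_Ico, Finset.mem_insert]
        omega
      rw [h0, Finset.sum_insert (by simp)]
      set x := Bf Z (D + 1) with hx
      set y := Bf Z D with hy
      have hxD : x ≤ D + 1 := by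
        apply bf_le
        intro b hb1 hb2
        obtain rfl : b = D + 1 := by omega
        exact hβ' _ (by omega) (by omega)
      have hx1 : 1 ≤ x := by
        by_contra hcon
        have hx0 : x = 0 := by omega
        have := bf_spec Z (D + 1) 0 (by rw [← hx, hx0]) (by omega)
        exact hZ0 (D + 1) (by omega) this
      rcases le_or_gt y x with h | h
      · omega
      · obtain ⟨b, hb⟩ : ∃ b, y = b + 1 := ⟨y - 1, by omega⟩
        obtain ⟨hZb, hbD⟩ := bf_pred (hy.symm.trans hb)
        have hc := hcor D b x (by omega) hx1 (by omega) hbD (by omega) hZb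
          (fun b' h1 h2 => bf_spec Z (D + 1) b' h1 (by omega))
          (fun h1 => bf_spec Z D (b + 1) (by rw [← hy, hb]) h1)
        have h3 : b + 1 - x ≤ cnt D := by
          have h4 : Finset.Icc 1 (b + 1 - x) ⊆
              (Finset.Icc 1 σ).filter fun g => σ - D ≤ nu g * e := by
            intro g hg
            rw [Finset.mem_Icc] at hg
            rw [Finset.mem_filter, Finset.mem_Icc]
            refine ⟨⟨hg.1, by omega⟩, hc.trans ?_⟩
            exact Nat.mul_le_mul_right _ (hnu _ _ hg.2)
          have h5 := Finset.card_le_card h4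
          rw [Nat.card_Icc] at h5
          simp only [hcnt]
          omega
        omega
  have h1 := key (σ - 1 - β) β (by omega) le_rfl
  have h2 : β + 1 ≤ Bf Z β := by
    by_contra hcon
    exact hβ (bf_spec Z β β (by omega) le_rfl)
  have h3 : ∑ D' ∈ Finset.Ico β (σ - 1), cnt D' =
      ∑ g ∈ Finset.Icc 1 σ, ((Finset.Ico β (σ - 1)).filter fun D' => σ - D' ≤ nu g * e).card := by
    simp only [hcnt, Finset.card_filter]
    exact Finset.sum_comm
  have h4 : ∀ g ∈ Finset.Icc 1 σ,
      ((Finset.Ico β (σ - 1)).filter fun D' => σ - D' ≤ nu g * e).card ≤ nu g * e - 1 := by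
    intro g _
    have h5 : ((Finset.Ico β (σ - 1)).filter fun D' => σ - D' ≤ nu g * e).card ≤
        (Finset.Icc 2 (nu g * e)).card := by
      apply Finset.card_le_card_of_injOn (fun D' => σ - D')
      · intro D' hD'
        have h6 := Finset.mem_coe.mp hD'
        rw [Finset.mem_filter, Finset.mem_Ico] at h6
        simp only [Finset.coe_Icc, Set.mem_Icc]
        omega
      · intro a ha b hb hab
        have h6 := Finset.mem_coe.mp ha
        have h7 := Finset.mem_coe.mp hb
        rw [Finset.mem_filter, Finset.mem_Ico] at h6 h7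
        have hab' : σ - a = σ - b := hab
        omega
    rw [Nat.card_Icc] at h5
    omega
  have h5 := Finset.sum_le_sum h4
  omega

end Pool.Agent.Q8.GE
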