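import Pool.Agent.Q8.GE.Pt
import Pool.Agent.Q8.GE.Cnt2
import Pool.Agent.Q8.GC.Core
import Pool.Agent.Q8.GD.Low

/-!
**The theorem of Gordan and Noether for negative powers.**
-/

open MvPolynomial
open Pool.Agent.W515.SLP (AnnP Deg annP_zero annP_of_gt annP_of_homog lin)
open H503R3.QCI (Homog NZD Reg isSocleDegree_ci gr mem_gr comp_mul comp_mul_of_lt homog_span)
open TH130CI
open Pool.Agent.Y204.LF (OpenC reg_prefix em sum_em bound_sorted reg_lin)

namespace Pool.Agent.Q8.GE

open Module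
open Pool.Agent.Q8.GC
open Pool.Agent.Q8.GD (cc_or)

variable {K : Type*} [Field K]

lemma snoc_mono {N : ℕ} {e : Fin N → ℕ} (he : Monotone e) {D c : ℕ} (hD : ∀ i, e i ≤ D)
    (hc : D ≤ c) : Monotone (Fin.snoc e c : Fin (N + 1) → ℕ) := by
  intro i j hij
  revert hij
  refine Fin.lastCases ?_ (fun i => ?_) i
  · intro hij
    have : j = Fin.last N := le_antisymm (Fin.le_last j) hij
    rw [this]
  · refine Fin.lastCases ?_ (fun j => ?_) j
    · intro _
      rw [Fin.snoc_castSucc, Fin.snoc_last]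
      exact (hD i).trans hc
    · intro hij
      rw [Fin.snoc_castSucc, Fin.snoc_castSucc]
      exact he (Fin.castSucc_le_castSucc_iff.mp hij)

lemma em_le {N : ℕ} (e : Fin N → ℕ) (c i : ℕ) :
    Pool.Agent.Y204.LF.em e i ≤ Pool.Agent.Y204.LF.em (Fin.snoc e c : Fin (N + 1) → ℕ) i := by
  unfold Pool.Agent.Y204.LF.em
  by_cases h : i < N
  · rw [dif_pos h, dif_pos (by omega)]
    have h1 : (⟨i, by omega⟩ : Fin (N + 1)) = Fin.castSucc ⟨i, h⟩ := rfl
    rw [h1, Fin.snoc_castSucc]
  · rw [dif_neg h]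
    exact Nat.zero_le _

theorem coreN [CharZero K] {N : ℕ} {a : Fin N → MvPolynomial (Fin (N + 1)) K}
    {e : Fin N → ℕ} (ha : ∀ i, (a i).IsHomogeneous (e i)) (he : ∀ i, 2 ≤ e i) (hreg : Reg a)
    (hmono : Monotone e) {D : ℕ} (hD2 : 2 ≤ D) (hD : ∀ i, e i ≤ D)
    (hpow : ∀ k, 1 ≤ k → k + 2 ≤ N →
      k * (D - 1) ≤ ∑ i ∈ Finset.range (k + 1), Pool.Agent.Y204.LF.em e i ∨
      finrank K (Submodule.span K {z : Fin (N + 1) → K |
        (lin z : MvPolynomial (Fin (N + 1)) K) ^ (k * (D - 1)) ∈ Ideal.span (Set.range a)}) ≤ k)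
    {f : MvPolynomial (Fin (N + 1)) K} {d : ℕ} (hf : f.IsHomogeneous d)
    (hfJ : NZD (Ideal.span (Set.range a)) f)
    {k : ℕ} (hk : 2 ≤ k) (hkd : ∑ i, (e i - 1) + k = d + 3)
    {S : Set (Fin (N + 1) → K)} (hS : OpenC S)
    (hSJ : ∀ q ∈ S, NZD (Ideal.span (Set.range a)) (lin q)) (hne : S.Nonempty)
    (hex : ∃ m : Fin (N + 1) → MvPolynomial (Fin (N + 1)) K, m ≠ 0 ∧
      ∀ q ∈ S, f * lin (vl q m) ∈ Jc (Ideal.span (Set.range a)) q k) : False := by
  classical
  have he1 : ∀ i, 1 ≤ e i := fun i => (by omega : 1 ≤ 2).trans (he i)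
  obtain ⟨m, j0, hj0, hm, hmm, hmX⟩ := exists_minN ha he1 hreg hf hS hSJ (by omega)
    (by omega) hex
  obtain ⟨A, hA⟩ := nilN ha he1 hreg hf hfJ hS hSJ hk (by omega) hm
  have hgn := gnN ha he1 hreg hf hS hSJ (by omega) (by omega) hm
  set J := Ideal.span (Set.range a) with hJdef
  have hJ : Homog J := homog_J ha
  set r := ∑ i, (e i - 1) with hr
  set σ := A + d + 3 with hσ
  obtain ⟨q, S', hqS', hS'S, hS'o, hqj, hgen⟩ := exists_pointN hJ hS hSJ
    (fun q hq => finite_E ha he1 hreg (hSJ q hq)) hne hf hj0 (k + 2 * σ)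
  have hqS : q ∈ S := hS'S hqS'
  have hqJ : NZD J (lin q) := hSJ q hqS
  have hS'J : ∀ q ∈ S', NZD J (lin q) := fun q hq => hSJ q (hS'S hq)
  have hfin := finite_E ha he1 hreg hqJ
  have h1J : (1 : MvPolynomial (Fin (N + 1)) K) ∉ J := one_notMem_J ha he1 hreg hqJ
  set p := vl q m with hp
  set M := MM q m with hM
  have hp0 : p ≠ 0 := by
    intro h0
    apply hqj
    exact congrFun h0 j0
  have hMp : M p ∈ Submodule.span K {p} := MM_mem hqj hmm
  have hMq : M q ∈ Submodule.span K {p} := by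
    have h1 := MM_mem hqj hmX
    rwa [vl_X] at h1
  -- no linear forms in `J`
  have hlin : ∀ z : Fin (N + 1) → K, (lin z : MvPolynomial (Fin (N + 1)) K) ∈ J → z = 0 := by
    intro z hz
    apply lin_notMem (snoc_homog ha q D) (e := Fin.snoc e D) (fun i => ?_)
      (reg_snoc_pow hreg hqJ D) (snoc_mono hmono hD le_rfl)
    · rw [span_snoc]
      exact le_Jc hz
    · refine Fin.lastCases ?_ (fun j => ?_) i
      · rw [Fin.snoc_last]; exact hD2
      · rw [Fin.snoc_castSucc]; exact he j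
  -- the nilpotency index
  have hA1 : 1 ≤ A := by
    by_contra hcon
    have h0 : A = 0 := by omega
    have h1 := hA q hqS
    rw [h0, pow_zero] at h1
    exact h1J h1
  have hexb : ∃ b, lin p ^ (b + 1) ∈ J := ⟨A - 1, by
    rw [Nat.sub_add_cancel hA1]
    exact hA q hqS⟩
  obtain ⟨β, hβ1, hβmin⟩ : ∃ β, lin p ^ (β + 1) ∈ J ∧ ∀ b < β, lin p ^ (b + 1) ∉ J :=
    ⟨Nat.find hexb, Nat.find_spec hexb, fun b hb => Nat.find_min hexb hb⟩
  have hβA : β + 1 ≤ A := by
    by_contra hcon
    refine hβmin (A - 1) (by omega) ?_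
    rw [Nat.sub_add_cancel hA1]
    exact hA q hqS
  have hβ0 : lin p ^ β ∉ J := by
    rcases Nat.eq_zero_or_pos β with h | h
    · rw [h, pow_zero]; exact h1J
    · have := hβmin (β - 1) (by omega)
      rwa [Nat.sub_add_cancel h] at this
  have hβgt : ∀ b, β < b → lin p ^ b ∈ J := by
    intro b hb
    obtain ⟨j, rfl⟩ := Nat.exists_eq_add_of_le (Nat.succ_le_of_lt hb)
    rw [pow_add]
    exact J.mul_mem_right _ hβ1
  have hβall : ∀ q' ∈ S', lin (vl q' m) ^ (β + 1) ∈ J := by
    intro q' hq'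
    apply hfJ
    apply mem_of_Jc hJ (hom_fp hf (vl q' m) (β + 1)) (c := d + β + 2) (by omega)
    exact hgen (β + 1) (d + β + 2) (by omega) (by omega) (le_Jc (J.mul_mem_left _ hβ1)) q' hq'
  -- the staircase
  set Z : ℕ → ℕ → Prop := fun D' b => f * lin p ^ b ∈ Jc J q (k - 2 + (σ - D') + b) with hZ
  have hZg : ∀ D' b, b ≤ σ → Z D' b → ∀ q' ∈ S',
      f * lin (vl q' m) ^ b ∈ Jc J q' (k - 2 + (σ - D') + b) := by
    intro D' b hb hz
    exact hgen b _ (by omega) (by omega) hz
  have hZ0 : ∀ D', D' + 1 ≤ σ → ¬ Z D' 0 := by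
    intro D' hD' h1
    apply t0 ha he1 hreg hf hfJ hS'o hS'J ⟨q, hqS'⟩ (c := k - 2 + (σ - D')) (by omega) (by omega)
    intro q' hq'
    have h2 := hZg D' 0 (by omega) h1 q' hq'
    rw [pow_zero, mul_one] at h2
    exact h2
  have hZ1 : ∀ b, 1 ≤ b → b + 1 ≤ σ → Z (σ - 1) b := by
    intro b hb1 hb2
    have h1 := hgn (b - 1) q hqS
    change f * lin p ^ b ∈ Jc J q (k - 2 + (σ - (σ - 1)) + b)
    rwa [Nat.sub_add_cancel hb1, show k + (b - 1) = k - 2 + (σ - (σ - 1)) + b by omega] at h1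
  have hZβ : ¬ Z β β := by
    intro h1
    apply hβ0
    apply hfJ
    exact mem_of_Jc hJ (hom_fp hf p β) (by omega) h1
  have hZgt : ∀ D' b, β < b → Z D' b := by
    intro D' b hb
    exact le_Jc (J.mul_mem_left _ (hβgt b hb))
  -- the relations at `q`
  have hrel : ∀ D' b, D' + 1 ≤ σ → b + 1 ≤ σ → Z (D' + 1) (b + 1) → ∀ u,
      ((b + 1 : ℕ) : MvPolynomial (Fin (N + 1)) K) * (lin q * (f * lin p ^ b * lin (M u))) -
        ((k - 2 + (σ - D') + b : ℕ) : MvPolynomial (Fin (N + 1)) K) *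
          (f * lin p ^ (b + 1) * lin u) ∈ Jc J q (k - 2 + (σ - D') + b + 1) := by
    intro D' b hD' hb hz u
    have h1 := rel hJ hS'o hqS' hqJ hfin hf (hZg (D' + 1) (b + 1) hb hz) u
    rwa [show k - 2 + (σ - (D' + 1)) + (b + 1) = k - 2 + (σ - D') + b by omega] at h1
  have hcor : ∀ D' b x, β ≤ D' → 1 ≤ x → x ≤ b → b ≤ D' → D' + 2 ≤ σ → ¬ Z D' b →
      (∀ b', x ≤ b' → b' ≤ b + 1 → Z (D' + 1) b') → (b + 1 ≤ D' → Z D' (b + 1)) →
      σ - D' ≤ nu (quo M p hMp) (b + 1 - x) * (D - 1) := by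
    intro D' b x hβD hx1 hxb hbD hDs hnz hz hz'
    set Δ := k - 2 + (σ - D') with hΔ
    have hz'' : Z D' (b + 1) := by
      rcases Nat.lt_or_ge b D' with h | h
      · exact hz' (by omega)
      · exact hZgt _ _ (by omega)
    have hdown : ∀ b'', x ≤ b'' + 1 → b'' ≤ b → ∀ u, M u ∈ Tk (Jc J q (Δ + b'')) (f * lin p ^ b'') →
        u ∈ Tk (Jc J q (Δ + (b'' + 1))) (f * lin p ^ (b'' + 1)) := by
      intro b'' h1 h2 u hu
      have h3 := hrel D' b'' (by omega) (by omega) (hz (b'' + 1) h1 (by omega)) u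
      rw [mem_Tk] at hu ⊢
      apply nat_mem (N := Δ + b'') (by omega)
      have h4 := Ideal.sub_mem _ ((Jc J q (Δ + b'' + 1)).mul_mem_left
        ((b'' + 1 : ℕ) : MvPolynomial (Fin (N + 1)) K) (Jc_mul hu)) h3
      rwa [sub_sub_cancel] at h4
    have himT : ∀ u, M u ∈ Tk (Jc J q (Δ + b)) (f * lin p ^ b) := by
      intro u
      have h3 := hrel D' b (by omega) (by omega) (hz (b + 1) (by omega) le_rfl) u
      rw [mem_Tk]
      apply Jc_cancel hqJ
      apply nat_mem (N := b + 1) (by omega)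
      have h4 := (Jc J q (Δ + b + 1)).mul_mem_left
        (((Δ + b : ℕ) : MvPolynomial (Fin (N + 1)) K) * lin u) (hz'' : f * lin p ^ (b + 1) ∈ _)
      have h5 := Ideal.add_mem _ h3 h4
      convert h5 using 1
      ring
    have hpT : ∀ b'', x ≤ b'' + 1 → b'' ≤ b → p ∈ Tk (Jc J q (Δ + b'')) (f * lin p ^ b'') := by
      intro b'' h1 h2
      rw [mem_Tk]
      have h3 : f * lin p ^ (b'' + 1) ∈ Jc J q (k - 2 + (σ - (D' + 1)) + (b'' + 1)) :=
        hz (b'' + 1) h1 (by omega)
      rw [pow_succ, ← mul_assoc, show k - 2 + (σ - (D' + 1)) + (b'' + 1) = Δ + b'' by omega] at h3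
      exact h3
    have hqT : lin q * (f * lin p ^ b) ∈ Jc J q (Δ + b) := by
      have h3 : f * lin p ^ b ∈ Jc J q (k - 2 + (σ - (D' + 1)) + b) := hz b hxb (by omega)
      have h4 := Jc_mul h3
      rwa [show k - 2 + (σ - (D' + 1)) + b + 1 = Δ + b by omega] at h4
    have hit : ∀ j, j ≤ b + 1 - x → ∀ u,
        (M ^ j) u ∈ Tk (Jc J q (Δ + (b - j))) (f * lin p ^ (b - j)) →
        u ∈ Tk (Jc J q (Δ + b)) (f * lin p ^ b) := by
      intro j
      induction j with
      | zero =>
        intro _ u hu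
        rwa [pow_zero, Nat.sub_zero] at hu
      | succ j ih =>
        intro hj u hu
        apply ih (by omega)
        rw [pow_succ', Module.End.mul_apply] at hu
        have h1 := hdown (b - (j + 1)) (by omega) (by omega) _ hu
        rwa [show b - (j + 1) + 1 = b - j by omega] at h1
    have hcod := codim_quo M hp0 hMp (b + 1 - x) (Tk (Jc J q (Δ + b)) (f * lin p ^ b))
      (by
        intro u hu
        apply hit _ le_rfl
        exact lin_mem_of_span hu (hpT _ (by omega) (by omega)))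
      himT (hpT b (by omega) le_rfl)
    rw [finrank_fin_fun] at hcod
    have hbas := (Module.finBasis K (Tk (Jc J q (Δ + b)) (f * lin p ^ b))).linearIndependent.map'
      (Tk (Jc J q (Δ + b)) (f * lin p ^ b)).subtype (Submodule.ker_subtype _)
    have hJ' : Ideal.span (Set.range fun i : Fin N =>
        (Fin.snoc a (lin q ^ (Δ + b)) : Fin (N + 1) → MvPolynomial (Fin (N + 1)) K) i.castSucc) =
        J := by
      simp only [Fin.snoc_castSucc]
      rfl
    have hbd := bound_gen (snoc_homog ha q (Δ + b)) (snoc_one_le he1 (c := Δ + b) (by omega))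
      (reg_snoc_pow hreg hqJ (Δ + b)) (D := D) (by omega)
      (fun i => by rw [Fin.snoc_castSucc]; exact hD i) (q := q) (by rw [hJ']; exact hqJ)
      (hom_fp hf p b) (by rw [span_snoc]; exact hnz) (by rw [span_snoc]; exact hqT) hbas (by
        intro i
        have h1 := (Module.finBasis K (Tk (Jc J q (Δ + b)) (f * lin p ^ b)) i).2
        rw [mem_Tk, mul_comm] at h1
        rw [span_snoc]
        exact h1)
    rw [snoc_sum, ← hr] at hbd
    have h1 : (N + 1 - finrank K (Tk (Jc J q (Δ + b)) (f * lin p ^ b))) * (D - 1) ≤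
        nu (quo M p hMp) (b + 1 - x) * (D - 1) := by
      apply Nat.mul_le_mul_right
      omega
    omega
  have hcount := count2 σ β (D - 1) Z (fun g => nu (quo M p hMp) g) (by omega) hZ0 hZ1 hZβ
    (fun D' h1 _ => hZgt _ _ h1) hcor (fun g h hgh => nu_antitone _ hgh)
  -- the sum of the `ν`
  set c := cc (quo M p hMp) 1 with hc
  have hsumnu : ∑ g ∈ Finset.Icc 1 σ, nu (quo M p hMp) g ≤ c := by
    have h1 := sum_nu (quo M p hMp) σ
    have h2 : ∑ g ∈ Finset.Icc 1 σ, nu (quo M p hMp) g =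
        ∑ g ∈ Finset.range σ, nu (quo M p hMp) (g + 1) := by
      rw [Finset.range_eq_Ico, Finset.sum_Ico_add' (nu (quo M p hMp)) 0 σ 1]
      refine Finset.sum_congr ?_ fun _ _ => rfl
      ext x
      simp only [Finset.mem_Icc, Finset.mem_Ico]
      omega
    rw [h2, hc, ← h1]
    exact Nat.le_add_right _ _
  -- the lower bound for `β`
  have hβbd : ∑ i ∈ Finset.range (c + 1), Pool.Agent.Y204.LF.em e i ≤ β := by
    set C0 := D + β + 2 with hC0
    have himT : ∀ u, M u ∈ Tk (Jc J q C0) (lin p ^ β) := by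
      intro u
      rw [mem_Tk]
      apply le_Jc
      apply hfJ
      apply hqJ
      have h1 := rel hJ hS'o hqS' hqJ hfin hf (b := β) (c := d + β + 2)
        (fun q' hq' => le_Jc (J.mul_mem_left _ (hβall q' hq'))) u
      have h2 : lin q * (f * lin p ^ β * lin (M u)) ∈ Jc J q (d + β + 2 + 1) := by
        apply nat_mem (N := β + 1) (by omega)
        have h3 : ((d + β + 2 : ℕ) : MvPolynomial (Fin (N + 1)) K) *
            (f * lin p ^ (β + 1) * lin u) ∈ Jc J q (d + β + 2 + 1) := by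
          apply le_Jc
          exact J.mul_mem_left _ (J.mul_mem_right _ (J.mul_mem_left _ hβ1))
        have h4 := Ideal.add_mem _ h1 h3
        rwa [sub_add_cancel] at h4
      have h3 := ((lin_homog q).mul ((hom_fp hf p β).mul (lin_homog (M u))))
      have h4 := mem_of_Jc hJ h3 (by omega) h2
      convert h4 using 1
      ring
    have hdim := dim_quo M hp0 hMp (Tk (Jc J q C0) (lin p ^ β)) himT (by
      rw [mem_Tk, ← pow_succ]
      exact le_Jc hβ1)
    have hv : finrank K (Tk (Jc J q C0) (lin p ^ β)) ≤ N + 1 := by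
      have h1 := Submodule.finrank_le (Tk (Jc J q C0) (lin p ^ β))
      rwa [finrank_fin_fun] at h1
    have hbas := (Module.finBasis K (Tk (Jc J q C0) (lin p ^ β))).linearIndependent.map'
      (Tk (Jc J q C0) (lin p ^ β)).subtype (Submodule.ker_subtype _)
    have hhom : (lin p ^ β : MvPolynomial (Fin (N + 1)) K).IsHomogeneous β := by
      have h1 := (lin_homog p).pow β
      rwa [one_mul] at h1
    have hbd := bound_sorted (snoc_homog ha q C0) (snoc_one_le he1 (c := C0) (by omega))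
      (reg_snoc_pow hreg hqJ C0) (snoc_mono hmono hD (by omega)) hv
      (ε := fun _ => 1) (fun i => lin_homog _)
      (fun _ => le_rfl) (reg_lin hbas) hhom (by
        rw [span_snoc]
        intro h1
        exact hβ0 (mem_of_Jc hJ hhom (by omega) h1)) (by
      intro i
      have h1 := (Module.finBasis K (Tk (Jc J q C0) (lin p ^ β)) i).2
      rw [mem_Tk, mul_comm] at h1
      rw [span_snoc]
      exact h1)
    simp only [Nat.sub_self, Finset.sum_const_zero, Nat.add_zero] at hbd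
    refine le_trans ?_ hbd
    refine le_trans (Finset.sum_le_sum fun i _ => em_le e C0 i) ?_
    apply Finset.sum_le_sum_of_subset
    intro x hx
    rw [Finset.mem_range] at hx ⊢
    exact lt_of_lt_of_le hx hdim
  have h1β : 1 ≤ β := by
    by_contra hcon
    have h0 : β = 0 := by omega
    rw [h0, zero_add, pow_one] at hβ1
    exact hp0 (hlin p hβ1)
  -- the class of `q` is not in the range
  have hqr : (Submodule.Quotient.mk q : (Fin (N + 1) → K) ⧸ Submodule.span K {p}) ∉
      LinearMap.range (quo M p hMp) := by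
    rintro ⟨x, hx⟩
    obtain ⟨u, rfl⟩ := Submodule.Quotient.mk_surjective _ x
    have hx' : (Submodule.Quotient.mk (M u) : (Fin (N + 1) → K) ⧸ Submodule.span K {p}) =
        Submodule.Quotient.mk q := hx
    rw [Submodule.Quotient.eq] at hx'
    set Tn : Submodule K (Fin (N + 1) → K) :=
      (J.radical.restrictScalars K).comap (linL K (N + 1)) with hTn
    have hTn' : ∀ z : Fin (N + 1) → K, z ∈ Tn ↔
        (lin z : MvPolynomial (Fin (N + 1)) K) ∈ J.radical := fun z => Iff.rfl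
    have h1 : M u ∈ Tn := MM_mem_of_open hS'o Tn (fun q' hq' => by
      rw [hTn']
      exact ⟨β + 1, hβall q' hq'⟩) hqS' u
    have h2 : p ∈ Tn := by
      rw [hTn']
      exact ⟨β + 1, hβ1⟩
    have h3 : q ∈ Tn := by
      obtain ⟨α, hα⟩ := Submodule.mem_span_singleton.mp hx'
      have h4 : q = M u - α • p := by rw [hα]; abel
      rw [h4]
      exact Tn.sub_mem h1 (Tn.smul_mem _ h2)
    rw [hTn'] at h3
    obtain ⟨l, hl⟩ := h3
    apply h1J
    apply nzd_pow hqJ l
    rwa [mul_one]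
  -- the contradiction
  by_cases hβc : c * (D - 1) ≤ β
  · exact numeric hcount hsumnu hβc h1β
  push Not at hβc
  rcases cc_or (quo M p hMp) (x := Submodule.Quotient.mk q)
    ((Submodule.Quotient.mk_eq_zero _).mpr hMq) hqr with hc2 | hc2
  · have hfr := finrank_quo (K := K) hp0
    rw [finrank_fin_fun] at hfr
    have hc1 : 1 ≤ c := by
      by_contra hcon
      have h0 : c = 0 := by omega
      rw [h0, zero_mul] at hβc
      omega
    rcases hpow c hc1 (by omega) with hT | hT
    · omega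
    set T := Submodule.span K {z : Fin (N + 1) → K |
      (lin z : MvPolynomial (Fin (N + 1)) K) ^ (c * (D - 1)) ∈ J} with hTdef
    have hall : ∀ q' ∈ S', vl q' m ∈ T := by
      intro q' hq'
      apply Submodule.subset_span
      obtain ⟨l, hl⟩ := Nat.exists_eq_add_of_le (Nat.succ_le_of_lt hβc)
      change lin (vl q' m) ^ (c * (D - 1)) ∈ J
      rw [hl, pow_add]
      exact J.mul_mem_right _ (hβall q' hq')
    have hdim := dim_quo M hp0 hMp T (fun u => MM_mem_of_open hS'o T hall hqS' u) (hall q hqS')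
    omega
  · apply numeric (c := 0) hcount ?_ (by omega) h1β
    apply le_of_eq
    apply Finset.sum_eq_zero
    intro g hg
    exact hc2 g (Finset.mem_Icc.mp hg).1

end Pool.Agent.Q8.GE
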