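import Pool.Agent.Q8.GE.Line

/-!
The coordinate ring of the affine scheme `q = 1` and the classes of forms divisible by a power of
`q`.
-/

open MvPolynomial
open Pool.Agent.W515.SLP (AnnP Deg annP_zero annP_of_gt annP_of_homog lin)
open H503R3.QCI (Homog NZD Reg isSocleDegree_ci gr mem_gr comp_mul comp_mul_of_lt)
open TH130CI

namespace Pool.Agent.Q8.GE

open Pool.Agent.Q8.GC

variable {K : Type*} [Field K] {n : ℕ}

/-- the ideal of the affine scheme `q = 1` -/
noncomputable def J1 (J : Ideal (MvPolynomial (Fin n) K)) (q : Fin n → K) : Ideal (MvPolynomial (Fin n) K) :=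
  J ⊔ Ideal.span {lin q - 1}

/-- `J + (q ^ c)` -/
noncomputable def Jc (J : Ideal (MvPolynomial (Fin n) K)) (q : Fin n → K) (c : ℕ) :
    Ideal (MvPolynomial (Fin n) K) := J ⊔ Ideal.span {lin q ^ c}

/-- the classes of the forms of degree `m` which are divisible by `q ^ c` -/
noncomputable def FF (J : Ideal (MvPolynomial (Fin n) K)) (q : Fin n → K) (m c : ℕ) :
    Submodule K (MvPolynomial (Fin n) K ⧸ J1 J q) :=
  (gr (Jc J q c) m).map (Ideal.Quotient.mkₐ K (J1 J q)).toLinearMap

variable {J : Ideal (MvPolynomial (Fin n) K)} {q : Fin n → K}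

lemma mem_FF {m c : ℕ} {x : MvPolynomial (Fin n) K ⧸ J1 J q} :
    x ∈ FF J q m c ↔ ∃ w : MvPolynomial (Fin n) K, w ∈ Jc J q c ∧ w.IsHomogeneous m ∧
      Ideal.Quotient.mk (J1 J q) w = x := by
  constructor
  · rintro ⟨w, hw, rfl⟩
    exact ⟨w, (mem_gr.mp hw).1, (mem_gr.mp hw).2, rfl⟩
  · rintro ⟨w, h1, h2, rfl⟩
    exact ⟨w, mem_gr.mpr ⟨h1, h2⟩, rfl⟩

lemma mk_q : Ideal.Quotient.mk (J1 J q) (lin q) = 1 := by
  rw [← map_one (Ideal.Quotient.mk (J1 J q)), Ideal.Quotient.mk_eq_mk_iff_sub_mem]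
  exact Ideal.mem_sup_right (Ideal.mem_span_singleton_self _)

lemma mem_Jc {c : ℕ} {w : MvPolynomial (Fin n) K} :
    w ∈ Jc J q c ↔ ∃ g, w - lin q ^ c * g ∈ J := by
  rw [Jc]
  constructor
  · intro h
    obtain ⟨a, ha, b, hb, rfl⟩ := Submodule.mem_sup.mp h
    obtain ⟨g, rfl⟩ := Ideal.mem_span_singleton'.mp hb
    exact ⟨g, by rw [mul_comm g, add_sub_cancel_right]; exact ha⟩
  · rintro ⟨g, hg⟩
    have h1 : w = (w - lin q ^ c * g) + lin q ^ c * g := by ring
    rw [h1]
    exact Ideal.add_mem _ (Ideal.mem_sup_left hg)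
      (Ideal.mem_sup_right (Ideal.mul_mem_right _ _ (Ideal.mem_span_singleton_self _)))

lemma le_Jc {c : ℕ} : J ≤ Jc J q c := le_sup_left

lemma Jc_mul {c : ℕ} {w : MvPolynomial (Fin n) K} (h : w ∈ Jc J q c) :
    lin q * w ∈ Jc J q (c + 1) := by
  obtain ⟨g, hg⟩ := mem_Jc.mp h
  refine mem_Jc.mpr ⟨g, ?_⟩
  have h1 := J.mul_mem_left (lin q) hg
  have h2 : lin q * (w - lin q ^ c * g) = lin q * w - lin q ^ (c + 1) * g := by ring
  rwa [h2] at h1

lemma Jc_pow_mul {c k : ℕ} {w : MvPolynomial (Fin n) K} (h : w ∈ Jc J q c) :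
    lin q ^ k * w ∈ Jc J q (c + k) := by
  induction k with
  | zero => rwa [pow_zero, one_mul]
  | succ k ih =>
    rw [pow_succ', mul_assoc]
    exact Jc_mul ih

lemma Jc_cancel (hq : NZD J (lin q)) {c : ℕ} {w : MvPolynomial (Fin n) K}
    (h : lin q * w ∈ Jc J q (c + 1)) : w ∈ Jc J q c := by
  obtain ⟨g, hg⟩ := mem_Jc.mp h
  refine mem_Jc.mpr ⟨g, hq _ ?_⟩
  have h2 : lin q * (w - lin q ^ c * g) = lin q * w - lin q ^ (c + 1) * g := by ring
  rwa [h2]

lemma Jc_cancel_pow (hq : NZD J (lin q)) {c k : ℕ} {w : MvPolynomial (Fin n) K}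
    (h : lin q ^ k * w ∈ Jc J q (c + k)) : w ∈ Jc J q c := by
  induction k with
  | zero => rwa [pow_zero, one_mul] at h
  | succ k ih =>
    apply ih
    rw [pow_succ', mul_assoc] at h
    exact Jc_cancel hq h

lemma Jc_anti {c k : ℕ} (h : c ≤ k) : Jc J q k ≤ Jc J q c := by
  intro w hw
  obtain ⟨g, hg⟩ := mem_Jc.mp hw
  obtain ⟨j, rfl⟩ := Nat.exists_eq_add_of_le h
  refine mem_Jc.mpr ⟨lin q ^ j * g, ?_⟩
  rwa [← mul_assoc, ← pow_add]

/-- forms of small degree are not divisible by large powers -/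
lemma mem_of_Jc (hJ : Homog J) {m c : ℕ} {w : MvPolynomial (Fin n) K} (hw : w.IsHomogeneous m)
    (hmc : m < c) (h : w ∈ Jc J q c) : w ∈ J := by
  have h1 := (lin_homog q).pow c
  rw [one_mul] at h1
  rcases sup_comp' hJ h1 hw h with h2 | h2
  · omega
  · exact h2

lemma exists_div (hJ : Homog J) {m c : ℕ} {w : MvPolynomial (Fin n) K} (hw : w.IsHomogeneous m)
    (h : w ∈ Jc J q c) :
    (c ≤ m ∧ ∃ b : MvPolynomial (Fin n) K, b.IsHomogeneous (m - c) ∧ w - lin q ^ c * b ∈ J) ∨
      w ∈ J := by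
  have h1 := (lin_homog q).pow c
  rw [one_mul] at h1
  exact sup_comp' hJ h1 hw h

/-- homogenisation: a form which vanishes on the affine scheme `q = 1` lies in `J` -/
lemma mem_of_J1 (hJ : Homog J) (hq : NZD J (lin q)) {m : ℕ} {y : MvPolynomial (Fin n) K}
    (hy : y.IsHomogeneous m) (h : y ∈ J1 J q) : y ∈ J := by
  obtain ⟨j, hj, b', hb, hjb⟩ := Submodule.mem_sup.mp h
  obtain ⟨b, rfl⟩ := Ideal.mem_span_singleton'.mp hb
  set L := b.totalDegree + 1 + m with hL
  let H : MvPolynomial (Fin n) K → MvPolynomial (Fin n) K := fun g =>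
    ∑ i ∈ Finset.range (L + 1), lin q ^ (L - i) * homogeneousComponent i g
  have hadd : ∀ x z, H (x + z) = H x + H z := by
    intro x z
    simp only [H, map_add, mul_add, Finset.sum_add_distrib]
  have hsub : ∀ x z, H (x - z) = H x - H z := by
    intro x z
    simp only [H, map_sub, mul_sub, Finset.sum_sub_distrib]
  have hHj : H j ∈ J := Ideal.sum_mem _ fun i _ => J.mul_mem_left _ (hJ j hj i)
  have hHy : H y = lin q ^ (L - m) * y := by
    simp only [H]
    rw [Finset.sum_eq_single m]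
    · rw [homogeneousComponent_of_mem hy, if_pos rfl]
    · intro i _ hi
      rw [homogeneousComponent_of_mem hy, if_neg hi, mul_zero]
    · intro hm
      exfalso
      apply hm
      rw [Finset.mem_range]
      omega
  have hHb : H (b * (lin q - 1)) = 0 := by
    have e1 : b * (lin q - 1) = lin q * b - b := by ring
    rw [e1, hsub]
    have e2 : H (lin q * b) = ∑ i ∈ Finset.range L, lin q ^ (L - i) * homogeneousComponent i b := by
      simp only [H]
      rw [Finset.sum_range_succ', comp_mul_of_lt (lin_homog q) Nat.zero_lt_one, mul_zero, add_zero]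
      refine Finset.sum_congr rfl fun i hi => ?_
      rw [Finset.mem_range] at hi
      rw [add_comm i 1, comp_mul (lin_homog q), ← mul_assoc, ← pow_succ]
      congr 2
      omega
    have e3 : H b = ∑ i ∈ Finset.range L, lin q ^ (L - i) * homogeneousComponent i b := by
      simp only [H]
      rw [Finset.sum_range_succ, homogeneousComponent_eq_zero L b (by omega), mul_zero, add_zero]
    rw [e2, e3, sub_self]
  have h1 : lin q ^ (L - m) * y ∈ J := by
    rw [← hHy, ← hjb, hadd, hHb, add_zero]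
    exact hHj
  clear hHy
  generalize L - m = k at h1
  induction k with
  | zero => rwa [pow_zero, one_mul] at h1
  | succ k ih =>
    apply ih
    apply hq
    rwa [← mul_assoc, ← pow_succ']

lemma mem_of_FF (hJ : Homog J) (hq : NZD J (lin q)) {m c : ℕ} {y : MvPolynomial (Fin n) K}
    (hy : y.IsHomogeneous m) (h : Ideal.Quotient.mk (J1 J q) y ∈ FF J q m c) : y ∈ Jc J q c := by
  obtain ⟨w, hw, hwm, hwy⟩ := mem_FF.mp h
  rw [Ideal.Quotient.mk_eq_mk_iff_sub_mem] at hwy
  have h1 := mem_of_J1 hJ hq (hwm.sub hy) hwy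
  have h2 : y = w - (w - y) := by ring
  rw [h2]
  exact Ideal.sub_mem _ hw (le_Jc h1)

lemma FF_succ (m c : ℕ) : FF J q m c ≤ FF J q (m + 1) (c + 1) := by
  intro x hx
  obtain ⟨w, hw, hwm, rfl⟩ := mem_FF.mp hx
  refine mem_FF.mpr ⟨lin q * w, Jc_mul hw, ?_, by rw [map_mul, mk_q, one_mul]⟩
  have := (lin_homog q).mul hwm
  rwa [add_comm] at this

lemma FF_pred (hJ : Homog J) (m c : ℕ) : FF J q (m + 1) (c + 1) ≤ FF J q m c := by
  intro x hx
  obtain ⟨w, hw, hwm, rfl⟩ := mem_FF.mp hx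
  rcases exists_div hJ hwm hw with ⟨h1, b, hb, hwb⟩ | h1
  · refine mem_FF.mpr ⟨lin q ^ c * b, ?_, ?_, ?_⟩
    · exact Ideal.mem_sup_right (Ideal.mul_mem_right _ _ (Ideal.mem_span_singleton_self _))
    · have := ((lin_homog q).pow c).mul hb
      rwa [one_mul, show c + (m + 1 - (c + 1)) = m by omega] at this
    · have h2 : Ideal.Quotient.mk (J1 J q) w =
          Ideal.Quotient.mk (J1 J q) (lin q ^ (c + 1) * b) := by
        rw [Ideal.Quotient.mk_eq_mk_iff_sub_mem]
        exact Ideal.mem_sup_left hwb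
      rw [h2, map_mul, map_mul, map_pow, map_pow, mk_q, one_pow, one_pow]
  · have h2 : Ideal.Quotient.mk (J1 J q) w = 0 := by
      rw [Ideal.Quotient.eq_zero_iff_mem]
      exact Ideal.mem_sup_left h1
    rw [h2]
    exact Submodule.zero_mem _

lemma FF_shift (hJ : Homog J) (m c k : ℕ) : FF J q (m + k) (c + k) = FF J q m c := by
  induction k with
  | zero => rfl
  | succ k ih =>
    rw [← ih]
    exact le_antisymm (FF_pred hJ _ _) (FF_succ _ _)

/-- the coordinate ring is spanned by the classes of the forms of one degree -/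
lemma top_J1 (hJ : Homog J) {r : ℕ}
    (h : ∀ m, r < m → ∀ g : MvPolynomial (Fin n) K, g.IsHomogeneous m →
      g ∈ J ⊔ Ideal.span {lin q}) : (homogeneousSubmodule (Fin n) K r).map
      (Ideal.Quotient.mkₐ K (J1 J q)).toLinearMap = ⊤ := by
  have hr : ∀ m, ∀ g : MvPolynomial (Fin n) K, g.IsHomogeneous m →
      Ideal.Quotient.mk (J1 J q) g ∈ (homogeneousSubmodule (Fin n) K r).map
        (Ideal.Quotient.mkₐ K (J1 J q)).toLinearMap := by
    intro m
    induction m using Nat.strong_induction_on with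
    | _ m ih =>
      intro g hg
      rcases le_or_gt m r with hm | hm
      · refine ⟨lin q ^ (r - m) * g, ?_, ?_⟩
        · have := ((lin_homog q).pow (r - m)).mul hg
          rwa [one_mul, Nat.sub_add_cancel hm] at this
        · change Ideal.Quotient.mk (J1 J q) (lin q ^ (r - m) * g) = _
          rw [map_mul, map_pow, mk_q, one_pow, one_mul]
      · rcases sup_comp' hJ (lin_homog q) hg (h m hm g hg) with ⟨h1, b, hb, hgb⟩ | h1
        · have h2 : Ideal.Quotient.mk (J1 J q) g = Ideal.Quotient.mk (J1 J q) b := by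
            have h3 : Ideal.Quotient.mk (J1 J q) g = Ideal.Quotient.mk (J1 J q) (lin q * b) := by
              rw [Ideal.Quotient.mk_eq_mk_iff_sub_mem]
              exact Ideal.mem_sup_left hgb
            rw [h3, map_mul, mk_q, one_mul]
          rw [h2]
          exact ih (m - 1) (by omega) b hb
        · have h2 : Ideal.Quotient.mk (J1 J q) g = 0 := by
            rw [Ideal.Quotient.eq_zero_iff_mem]
            exact Ideal.mem_sup_left h1
          rw [h2]
          exact Submodule.zero_mem _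
  rw [eq_top_iff]
  intro x _
  obtain ⟨g, rfl⟩ := Ideal.Quotient.mk_surjective x
  rw [← sum_homogeneousComponent g, map_sum]
  exact Submodule.sum_mem _ fun i _ => hr i _ (homogeneousComponent_isHomogeneous _ _)

/-- the coordinate ring is finite-dimensional -/
lemma finite_J1 (hJ : Homog J) {r : ℕ}
    (h : ∀ m, r < m → ∀ g : MvPolynomial (Fin n) K, g.IsHomogeneous m →
      g ∈ J ⊔ Ideal.span {lin q}) : Module.Finite K (MvPolynomial (Fin n) K ⧸ J1 J q) := by
  have hfg : ((homogeneousSubmodule (Fin n) K r).map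
      (Ideal.Quotient.mkₐ K (J1 J q)).toLinearMap).FG :=
    (homogeneousSubmodule_fg _ _ r).map _
  rw [top_J1 hJ h] at hfg
  exact ⟨hfg⟩

lemma finrank_J1 (hJ : Homog J) {r : ℕ}
    (h : ∀ m, r < m → ∀ g : MvPolynomial (Fin n) K, g.IsHomogeneous m →
      g ∈ J ⊔ Ideal.span {lin q}) : Module.finrank K (MvPolynomial (Fin n) K ⧸ J1 J q) ≤
        Module.finrank K (homogeneousSubmodule (Fin n) K r) := by
  have h1 := Submodule.finrank_map_le (Ideal.Quotient.mkₐ K (J1 J q)).toLinearMap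
    (homogeneousSubmodule (Fin n) K r)
  rwa [top_J1 hJ h, finrank_top] at h1

/-- **The first order condition.** -/
theorem line (hJ : Homog J) {u : Fin n → K}
    (hfin : Module.Finite K (MvPolynomial (Fin n) K ⧸ J1 J q)) {m c : ℕ}
    {Y : Polynomial (MvPolynomial (Fin n) K ⧸ J1 J q)} {T : Set K} (hT : T.Infinite)
    (h : ∀ t ∈ T, ∃ w : MvPolynomial (Fin n) K, w.IsHomogeneous m ∧ w ∈ Jc J (q + t • u) c ∧
      Ideal.Quotient.mk (J1 J q) w = Y.eval (algebraMap K _ t)) :
    Y.coeff 0 ∈ FF J q m c ∧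
      Y.coeff 1 - (c : MvPolynomial (Fin n) K ⧸ J1 J q) *
        (Ideal.Quotient.mk (J1 J q) (lin u) * Y.coeff 0) ∈ FF J q m c := by
  apply line_abs (FF J q m c) _ c Y hT
  intro t ht
  obtain ⟨w, hwm, hw, hwY⟩ := h t ht
  rw [← hwY]
  rcases exists_div hJ hwm hw with ⟨h1, b, hb, hwb⟩ | h1
  · refine ⟨Ideal.Quotient.mk (J1 J q) b, ?_, ?_⟩
    · refine mem_FF.mpr ⟨lin q ^ c * b, ?_, ?_, ?_⟩
      · exact Ideal.mem_sup_right (Ideal.mul_mem_right _ _ (Ideal.mem_span_singleton_self _))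
      · have := ((lin_homog q).pow c).mul hb
        rwa [one_mul, show c + (m - c) = m by omega] at this
      · rw [map_mul, map_pow, mk_q, one_pow, one_mul]
    · have h2 : Ideal.Quotient.mk (J1 J q) w =
          Ideal.Quotient.mk (J1 J q) (lin (q + t • u) ^ c * b) := by
        rw [Ideal.Quotient.mk_eq_mk_iff_sub_mem]
        exact Ideal.mem_sup_left hwb
      rw [h2, map_mul, map_pow, lin_add_smul, map_add, mk_q, smul_eq_C_mul, map_mul]
      rfl
  · refine ⟨0, Submodule.zero_mem _, ?_⟩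
    rw [mul_zero, Ideal.Quotient.eq_zero_iff_mem]
    exact Ideal.mem_sup_left h1

end Pool.Agent.Q8.GE
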