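import Pool.Agent.Q8.GE.CoreN

/-!
Injectivity of `ℓ ^ k : A_i → A_{i+k}` as the nonvanishing of a polynomial in `ℓ`, and the generic
kernel.
-/

open MvPolynomial
open Pool.Agent.W515.SLP (AnnP Deg annP_zero annP_of_gt annP_of_homog lin)
open H503R3.QCI (Homog NZD Reg isSocleDegree_ci gr mem_gr comp_mul comp_mul_of_lt homog_span)
open TH130CI
open Pool.Agent.Y204.LF (OpenC reg_prefix)

namespace Pool.Agent.Q8.GE

open Module
open Pool.Agent.Q8.GC

variable {K : Type*} [Field K] {n : ℕ}

/-- `ℓ ^ k : A_i → A_{i+k}` is injective for `ℓ = lin q` -/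
def Inj (I : Ideal (MvPolynomial (Fin n) K)) (k i : ℕ) (q : Fin n → K) : Prop :=
  ∀ g : MvPolynomial (Fin n) K, g.IsHomogeneous i → lin q ^ k * g ∈ I → g ∈ I

/-- functionals of `ℓ ^ k y` are polynomials in `ℓ` -/
theorem exists_poly (ψ : MvPolynomial (Fin n) K →ₗ[K] K) (k : ℕ) (y : MvPolynomial (Fin n) K) :
    ∃ Q : MvPolynomial (Fin n) K, ∀ q : Fin n → K, eval q Q = ψ (lin q ^ k * y) := by
  refine ⟨cmap ψ ((∑ j, C (X j) * X j) ^ k * C y), fun q => ?_⟩
  rw [eval_cmap]
  congr 1
  have h1 : ∀ x : MvPolynomial (Fin n) K,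
      ev q (C x : MvPolynomial (Fin n) (MvPolynomial (Fin n) K)) = x := fun x => eval_C _
  have h2 : ∀ j, ev q (X j : MvPolynomial (Fin n) (MvPolynomial (Fin n) K)) = C (q j) :=
    fun j => eval_X _
  rw [map_mul, map_pow, map_sum, h1, lin]
  congr 2
  refine Finset.sum_congr rfl fun j _ => ?_
  rw [map_mul, h1, h2, mul_comm]

/-- a basis of `A_i` -/
theorem exists_basis (I : Ideal (MvPolynomial (Fin n) K)) (i : ℕ) :
    ∃ (L : ℕ) (b : Fin L → MvPolynomial (Fin n) K), (∀ j, (b j).IsHomogeneous i) ∧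
      (∀ c : Fin L → K, ∑ j, c j • b j ∈ I → c = 0) ∧
      ∀ g : MvPolynomial (Fin n) K, g.IsHomogeneous i → ∃ c : Fin L → K, g - ∑ j, c j • b j ∈ I := by
  classical
  have hfin : Module.Finite K (AA I i) := by
    have : Module.Finite K (homogeneousSubmodule (Fin n) K i) :=
      Module.Finite.iff_fg.mpr (homogeneousSubmodule_fg _ _ i)
    unfold AA
    infer_instance
  let B := Module.finBasis K (AA I i)
  have hb : ∀ j, ∃ g : MvPolynomial (Fin n) K, g.IsHomogeneous i ∧
      Ideal.Quotient.mk I g = (B j : MvPolynomial (Fin n) K ⧸ I) := fun j => mem_AA.mp (B j).2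
  choose b hb1 hb2 using hb
  have hsum : ∀ c : Fin (finrank K (AA I i)) → K, Ideal.Quotient.mk I (∑ j, c j • b j) =
      ((∑ j, c j • B j : AA I i) : MvPolynomial (Fin n) K ⧸ I) := by
    intro c
    rw [map_sum, AddSubmonoidClass.coe_finsetSum]
    refine Finset.sum_congr rfl fun j _ => ?_
    change Ideal.Quotient.mk I (c j • b j) = c j • (B j : MvPolynomial (Fin n) K ⧸ I)
    rw [← hb2]
    rfl
  refine ⟨_, b, hb1, ?_, ?_⟩
  · intro c hc
    rw [← Ideal.Quotient.eq_zero_iff_mem, hsum] at hc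
    have h1 : ∑ j, c j • B j = 0 := Subtype.ext hc
    exact funext fun j => Fintype.linearIndependent_iff.mp B.linearIndependent c h1 j
  · intro g hg
    let x : AA I i := ⟨Ideal.Quotient.mk I g, mem_AA.mpr ⟨g, hg, rfl⟩⟩
    refine ⟨fun j => B.repr x j, ?_⟩
    rw [← Ideal.Quotient.eq_zero_iff_mem, map_sub, hsum, B.sum_repr, sub_self]

/-- **The determinant of the form `ℓ ^ k u v` on `A_i`.** -/
theorem det_iff [Infinite K] {I : Ideal (MvPolynomial (Fin n) K)}
    {φ : MvPolynomial (Fin n) K →ₗ[K] K} {σ k i : ℕ} (hφ : Deg φ σ) (hI : I = gor φ)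
    (hσ : k + 2 * i = σ) {L : ℕ} {b : Fin L → MvPolynomial (Fin n) K}
    (hb : ∀ j, (b j).IsHomogeneous i) (hb1 : ∀ c : Fin L → K, ∑ j, c j • b j ∈ I → c = 0)
    (hb2 : ∀ g : MvPolynomial (Fin n) K, g.IsHomogeneous i →
      ∃ c : Fin L → K, g - ∑ j, c j • b j ∈ I) :
    ∃ P : MvPolynomial (Fin n) K, (∀ q, eval q P ≠ 0 ↔ Inj I k i q) ∧
      (P = 0 → ∃ u : Fin L → MvPolynomial (Fin n) K, u ≠ 0 ∧
        ∀ q, lin q ^ k * ∑ l, eval q (u l) • b l ∈ I) := by
  classical
  have hpol := fun j l => exists_poly φ k (b j * b l)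
  choose H0 hH0 using hpol
  let H : Matrix (Fin L) (Fin L) (MvPolynomial (Fin n) K) := Matrix.of H0
  have hsum : ∀ (q : Fin n → K) (c : Fin L → K) (j : Fin L),
      ∑ l, φ (lin q ^ k * (b j * b l)) * c l = φ (lin q ^ k * (∑ l, c l • b l) * b j) := by
    intro q c j
    rw [Finset.mul_sum, Finset.sum_mul, map_sum]
    refine Finset.sum_congr rfl fun l _ => ?_
    have e : (lin q ^ k * (c l • b l) * b j : MvPolynomial (Fin n) K) =
        c l • (lin q ^ k * (b j * b l)) := by
      rw [smul_eq_C_mul, smul_eq_C_mul]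
      ring
    rw [e, map_smul, smul_eq_mul, mul_comm]
  have hmem : ∀ (q : Fin n → K) (c : Fin L → K),
      (∀ j, φ (lin q ^ k * (∑ l, c l • b l) * b j) = 0) → lin q ^ k * ∑ l, c l • b l ∈ I := by
    intro q c h
    rw [hI]
    have hU : (∑ l, c l • b l : MvPolynomial (Fin n) K).IsHomogeneous i :=
      IsHomogeneous.sum _ _ _ fun l _ => (homogeneousSubmodule (Fin n) K i).smul_mem _ (hb l)
    have hhom : (lin q ^ k * ∑ l, c l • b l : MvPolynomial (Fin n) K).IsHomogeneous (k + i) := by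
      have h1 := ((lin_homog q).pow k).mul hU
      rwa [one_mul] at h1
    refine annP_of_homog hφ (by omega) hhom fun v hv => ?_
    rw [show σ - (k + i) = i by omega] at hv
    obtain ⟨c', hc'⟩ := hb2 v hv
    have h2 : v = (v - ∑ j, c' j • b j) + ∑ j, c' j • b j := by ring
    rw [h2, mul_add, map_add]
    have h3 : φ (lin q ^ k * (∑ l, c l • b l) * (v - ∑ j, c' j • b j)) = 0 := by
      rw [hI] at hc'
      rw [mul_comm]
      exact hc' _
    rw [h3, zero_add, Finset.mul_sum, map_sum]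
    refine Finset.sum_eq_zero fun j _ => ?_
    rw [mul_smul_comm, map_smul, h j, smul_zero]
  have hdet : ∀ q, eval q H.det = 0 ↔ ¬ Inj I k i q := by
    intro q
    rw [RingHom.map_det, ← Matrix.exists_mulVec_eq_zero_iff]
    constructor
    · rintro ⟨c, hc, hHc⟩ hinj
      apply hc
      apply hb1
      apply hinj
      · exact IsHomogeneous.sum _ _ _ fun l _ =>
          (homogeneousSubmodule (Fin n) K i).smul_mem _ (hb l)
      · apply hmem
        intro j
        rw [← hsum]
        have h1 := congrFun hHc j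
        rw [Matrix.mulVec, dotProduct, Pi.zero_apply] at h1
        rw [← h1]
        refine Finset.sum_congr rfl fun l _ => ?_
        congr 1
        exact (hH0 j l q).symm
    · intro hinj
      simp only [Inj, not_forall] at hinj
      obtain ⟨g, hg, hgI, hgn⟩ := hinj
      obtain ⟨c, hc⟩ := hb2 g hg
      refine ⟨c, ?_, ?_⟩
      · rintro rfl
        apply hgn
        simp only [Pi.zero_apply, zero_smul, Finset.sum_const_zero, sub_zero] at hc
        exact hc
      · ext j
        rw [Matrix.mulVec, dotProduct, Pi.zero_apply]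
        have e1 : ∀ l, ((eval q).mapMatrix H) j l = φ (lin q ^ k * (b j * b l)) :=
          fun l => hH0 j l q
        simp only [e1]
        rw [hsum]
        have h1 : lin q ^ k * ∑ l, c l • b l ∈ I := by
          have h2 := I.sub_mem hgI (I.mul_mem_left (lin q ^ k) hc)
          have h3 : lin q ^ k * g - lin q ^ k * (g - ∑ l, c l • b l) =
              lin q ^ k * ∑ l, c l • b l := by ring
          rwa [h3] at h2
        rw [hI] at h1
        exact h1 _
  refine ⟨H.det, fun q => ?_, fun h0 => ?_⟩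
  · rw [Ne, hdet, not_not]
  · obtain ⟨u, hu, hHu⟩ := Matrix.exists_mulVec_eq_zero_iff.mpr h0
    refine ⟨u, hu, fun q => hmem q _ fun j => ?_⟩
    rw [← hsum]
    have h1 := congrFun hHu j
    rw [Matrix.mulVec, dotProduct, Pi.zero_apply] at h1
    have h2 := congrArg (eval q) h1
    rw [map_sum, map_zero] at h2
    rw [← h2]
    refine Finset.sum_congr rfl fun l _ => ?_
    have e : eval q (H j l * u l) = eval q (H j l) * eval q (u l) := map_mul _ _ _
    rw [e]
    congr 1
    exact (hH0 j l q).symm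

end Pool.Agent.Q8.GE
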