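import Pool.Agent.Q8.GC.Gen

/-!
A family of elements divisible by the powers of a moving linear form: the first order condition.
-/

namespace Pool.Agent.Q8.GE

section abstract

variable {K E : Type*} [Field K] [CommRing E] [Algebra K E]

open Polynomial in
theorem coeff_mem (F : Submodule K E) (P : Polynomial E) {T : Set K} (hT : T.Infinite)
    (h : ∀ t ∈ T, P.eval (algebraMap K E t) ∈ F) (i : ℕ) : P.coeff i ∈ F := by
  classical
  by_contra hcon
  obtain ⟨χ, hχ⟩ : ∃ χ : Module.Dual K (E ⧸ F), χ (Submodule.Quotient.mk (P.coeff i)) ≠ 0 := by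
    by_contra hc
    push Not at hc
    apply hcon
    rw [← Submodule.Quotient.mk_eq_zero]
    exact (Module.forall_dual_apply_eq_zero_iff K _).mp hc
  let ψ : E →ₗ[K] K := χ ∘ₗ F.mkQ
  let p : Polynomial K := ∑ j ∈ P.support, monomial j (ψ (P.coeff j))
  have hp : ∀ t, p.eval t = ψ (P.eval (algebraMap K E t)) := by
    intro t
    have h0 : P.eval (algebraMap K E t) = ∑ j ∈ P.support, P.coeff j * (algebraMap K E t) ^ j :=
      eval_eq_sum
    rw [h0, map_sum]
    simp only [p, eval_finsetSum, eval_monomial]
    refine Finset.sum_congr rfl fun j _ => ?_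
    rw [← map_pow, mul_comm (P.coeff j), ← Algebra.smul_def, map_smul, smul_eq_mul, mul_comm]
  have hp0 : p = 0 := by
    apply Polynomial.eq_zero_of_infinite_isRoot
    refine hT.mono fun t ht => ?_
    change p.eval t = 0
    rw [hp]
    change χ (Submodule.Quotient.mk _) = 0
    rw [(Submodule.Quotient.mk_eq_zero F).mpr (h t ht), map_zero]
  apply hχ
  have h1 : p.coeff i = ψ (P.coeff i) := by
    simp only [p, finsetSum_coeff, coeff_monomial, Finset.sum_ite_eq', mem_support_iff]
    split_ifs with h2
    · rfl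
    · rw [not_not.mp h2, map_zero]
  rw [hp0, coeff_zero] at h1
  exact h1.symm

open Polynomial in
theorem exists_inv [Module.Finite K E] (x : E) : ∃ (A : Polynomial E) (P : Polynomial K),
    (1 + C x * X) * A = P.map (algebraMap K E) ∧ P.coeff 0 = 1 := by
  obtain ⟨χ, hχ, hχx⟩ := Algebra.IsIntegral.isIntegral (R := K) (-x)
  let Q : Polynomial (Polynomial K) := scaleRoots (χ.map C) X
  let f : Polynomial K →+* Polynomial E := mapRingHom (algebraMap K E)
  have hdeg : (χ.map C).natDegree = χ.natDegree := natDegree_map_eq_of_injective C_injective _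
  have h1 : eval₂ f (f X * C (-x)) Q = 0 := by
    rw [scaleRoots_eval₂_mul, eval₂_map]
    have h2 : eval₂ (f.comp C) (C (-x)) χ = 0 := by
      have h3 : f.comp C = C.comp (algebraMap K E) := by
        ext r
        simp [f]
      rw [h3, ← hom_eval₂, hχx, map_zero]
    rw [h2, mul_zero]
  have h2 : eval₂ f (f 1) Q = f (Q.eval 1) := eval₂_at_apply f 1
  have h3 : (f 1 - f X * C (-x)) ∣ (Q.map f).eval (f 1) - (Q.map f).eval (f X * C (-x)) :=
    sub_dvd_eval_sub _ _ _
  rw [eval_map, eval_map, h1, h2, sub_zero] at h3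
  obtain ⟨A, hA⟩ := h3
  refine ⟨A, Q.eval 1, ?_, ?_⟩
  · have h4 : f (Q.eval 1) = (Q.eval 1).map (algebraMap K E) := rfl
    rw [← h4, hA]
    congr 1
    simp only [f, coe_mapRingHom, Polynomial.map_one, map_X, map_neg]
    ring
  · rw [eval_eq_sum_range, finsetSum_coeff, Finset.sum_eq_single χ.natDegree]
    · simp only [Q, coeff_scaleRoots, coeff_map, hdeg, Nat.sub_self, pow_zero, mul_one, one_pow,
        coeff_C_zero]
      exact hχ
    · intro j hj hne
      have hj' : j < χ.natDegree := by
        have h5 : j < Q.natDegree + 1 := Finset.mem_range.mp hj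
        rw [natDegree_scaleRoots, hdeg] at h5
        omega
      simp only [Q, coeff_scaleRoots, coeff_map, hdeg, one_pow, mul_one]
      rw [coeff_C_mul, coeff_X_pow, if_neg (by omega), mul_zero]
    · intro h
      exfalso
      apply h
      rw [Finset.mem_range, natDegree_scaleRoots, hdeg]
      omega

open Polynomial in
/-- **The first order condition**, abstract form. -/
theorem line_abs [Module.Finite K E] (F : Submodule K E) (x : E) (c : ℕ) (Y : Polynomial E)
    {T : Set K} (hT : T.Infinite) (h : ∀ t ∈ T, ∃ g ∈ F,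
      Y.eval (algebraMap K E t) = (1 + algebraMap K E t * x) ^ c * g) :
    Y.coeff 0 ∈ F ∧ Y.coeff 1 - (c : E) * (x * Y.coeff 0) ∈ F := by
  obtain ⟨A, P, hA, hP⟩ := exists_inv (K := K) x
  have h0 : A.coeff 0 = 1 := by
    have h1 := congrArg (fun p => p.coeff 0) hA
    simp only [mul_coeff_zero, coeff_add, coeff_one_zero, coeff_C_zero, coeff_X_zero, mul_zero,
      add_zero, one_mul, coeff_map, hP, map_one] at h1
    exact h1
  have h1 : A.coeff 1 = algebraMap K E (P.coeff 1) - x := by
    have h2 := congrArg (fun p => p.coeff 1) hA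
    simp only [mul_coeff_one, coeff_add, coeff_one_zero, coeff_C_zero, coeff_X_zero, mul_zero,
      add_zero, one_mul, coeff_map, h0, mul_one, coeff_X_one, coeff_C_succ,
      mul_coeff_zero] at h2
    have h3 : (1 : E[X]).coeff 1 = 0 := by
      rw [coeff_one]; simp
    rw [h3] at h2
    rw [← h2]
    ring
  have hc0 : (A ^ c).coeff 0 = 1 := by
    rw [← constantCoeff_apply, map_pow, constantCoeff_apply, h0, one_pow]
  have hc1 : (A ^ c).coeff 1 = (c : E) * A.coeff 1 := by
    clear h hc0
    induction c with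
    | zero =>
      rw [pow_zero, coeff_one]
      simp
    | succ c ih =>
      have hc0 : (A ^ c).coeff 0 = 1 := by
        rw [← constantCoeff_apply, map_pow, constantCoeff_apply, h0, one_pow]
      rw [pow_succ, mul_coeff_one, ih, hc0, h0]
      push_cast
      ring
  have hmem := coeff_mem F (A ^ c * Y) hT (by
    intro t ht
    obtain ⟨g, hg, hgY⟩ := h t ht
    have h2 := congrArg (eval (algebraMap K E t)) hA
    simp only [eval_mul, eval_add, eval_one, eval_C, eval_X, eval_map] at h2
    have h3 : eval₂ (algebraMap K E) (algebraMap K E t) P = algebraMap K E (P.eval t) :=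
      eval₂_at_apply _ _
    rw [h3] at h2
    rw [eval_mul, eval_pow, hgY, ← mul_assoc, ← mul_pow]
    have h4 : eval (algebraMap K E t) A * (1 + algebraMap K E t * x) = algebraMap K E (P.eval t) := by
      rw [← h2]; ring
    rw [h4, ← map_pow, ← Algebra.smul_def]
    exact F.smul_mem _ hg)
  have e0 := hmem 0
  have e1 := hmem 1
  rw [mul_coeff_zero, hc0, one_mul] at e0
  rw [mul_coeff_one, hc0, hc1, h1, one_mul] at e1
  refine ⟨e0, ?_⟩
  have h2 : Y.coeff 1 - (c : E) * (x * Y.coeff 0) = Y.coeff 1 + (c : E) *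
      (algebraMap K E (P.coeff 1) - x) * Y.coeff 0 - ((c : K) * P.coeff 1) • Y.coeff 0 := by
    rw [Algebra.smul_def, map_mul, map_natCast]
    ring
  rw [h2]
  exact F.sub_mem e1 (F.smul_mem _ e0)

end abstract

end Pool.Agent.Q8.GE
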