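import Pool.Agent.Q8.GE.Ci

/-!
The values of the solution are nilpotent modulo `J`.
-/

namespace Pool.Agent.Q8.GE

section abstract

open Polynomial

variable {K E : Type*} [Field K] [CommRing E] [Algebra K E]

/-- a polynomial which behaves like an idempotent at `z`, and whose derivative vanishes at `z` -/
theorem exists_idem {z : E} {A : ℕ} {χ : K[X]} (h0 : χ.coeff 0 ≠ 0)
    (hz : aeval z (X ^ A * χ) = 0) : ∃ P : K[X], X ^ A ∣ P ∧ aeval z (derivative P) = 0 ∧
      ∀ b, A ≤ b → aeval z P * z ^ b = z ^ b := by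
  have hcop : IsCoprime X χ := by
    rw [irreducible_X.coprime_iff_not_dvd, X_dvd_iff]
    exact h0
  have hcop2 : IsCoprime (X ^ (A + 1)) (χ ^ 2) := hcop.pow
  obtain ⟨α, β, h⟩ := hcop2
  have hP : α * X ^ (A + 1) = 1 - β * χ ^ 2 := by rw [← h]; ring
  refine ⟨α * X ^ (A + 1), ?_, ?_, ?_⟩
  · exact Dvd.intro_left (α * X) (by ring)
  · have h1 : X ^ A ∣ derivative (α * X ^ (A + 1)) := by
      rw [derivative_mul, derivative_X_pow]
      refine dvd_add ?_ ?_
      · exact Dvd.intro_left (derivative α * X) (by ring)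
      · rw [Nat.add_sub_cancel]
        exact Dvd.intro_left (α * C ((A + 1 : ℕ) : K)) (by ring)
    have h2 : χ ∣ derivative (α * X ^ (A + 1)) := by
      rw [hP, derivative_sub, derivative_one, derivative_mul, derivative_sq]
      exact ⟨-(derivative β * χ + β * (C 2 * derivative χ)), by ring⟩
    have h3 : IsCoprime (X ^ A) χ := hcop.pow_left
    obtain ⟨R, hR⟩ := h3.mul_dvd h1 h2
    rw [hR, map_mul, hz, zero_mul]
  · intro b hb
    obtain ⟨k, rfl⟩ := Nat.exists_eq_add_of_le hb
    rw [hP, map_sub, map_one, map_mul, map_pow]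
    have h4 : z ^ A * aeval z χ = 0 := by
      rw [← hz, map_mul, map_pow, aeval_X]
    have h5 : (1 - aeval z β * aeval z χ ^ 2) * z ^ (A + k) = z ^ (A + k) -
        aeval z β * aeval z χ * z ^ k * (z ^ A * aeval z χ) := by ring
    rw [h5, h4, mul_zero, sub_zero]

theorem exists_chi [Module.Finite K E] (z : E) {A : ℕ} (hA : Module.finrank K E ≤ A) :
    ∃ χ : K[X], χ.coeff 0 ≠ 0 ∧ aeval z (X ^ A * χ) = 0 := by
  have hint : IsIntegral K z := Algebra.IsIntegral.isIntegral z
  have hne := minpoly.ne_zero hint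
  obtain ⟨g, hg, hnd⟩ := (minpoly K z).exists_eq_pow_rootMultiplicity_mul_and_not_dvd hne 0
  rw [C_0, sub_zero] at hg hnd
  refine ⟨g, ?_, ?_⟩
  · rwa [Ne, ← X_dvd_iff]
  · have h1 : (minpoly K z).rootMultiplicity 0 ≤ A := by
      refine le_trans ?_ ((minpoly.natDegree_le (A := K) z).trans hA)
      have h2 := congrArg natDegree hg
      have hg0 : g ≠ 0 := by
        rintro rfl
        exact hnd (dvd_zero _)
      rw [natDegree_mul (pow_ne_zero _ X_ne_zero) hg0, natDegree_X_pow] at h2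
      omega
    obtain ⟨k, hk⟩ := Nat.exists_eq_add_of_le h1
    have h2 : X ^ A * g = X ^ k * minpoly K z := by
      calc X ^ A * g = X ^ k * (X ^ (minpoly K z).rootMultiplicity 0 * g) := by
            rw [← mul_assoc, ← pow_add, add_comm k, ← hk]
        _ = X ^ k * minpoly K z := by rw [← hg]
    rw [h2, map_mul, minpoly.aeval, mul_zero]

variable {V : Type*}

theorem eps_rel (F : Submodule K E) (f z : E) (U : V → E) (M : V → V) (D A : ℕ) (hA : 1 ≤ A)
    (hrel : ∀ b, A ≤ b + 1 → ∀ u, ((b + 1 : ℕ) : E) * (f * z ^ b * U (M u)) -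
      ((D + (b + 1) : ℕ) : E) * (f * z ^ (b + 1) * U u) ∈ F) (P : K[X]) (hP : X ^ A ∣ P) (u : V) :
    f * aeval z (derivative P) * U (M u) -
      f * ((D : E) * aeval z P + z * aeval z (derivative P)) * U u ∈ F := by
  obtain ⟨R, rfl⟩ := hP
  induction R using Polynomial.induction_on' with
  | add p q hp hq =>
    have h := F.add_mem hp hq
    convert h using 1
    simp only [mul_add, map_add]
    ring
  | monomial i r =>
    obtain ⟨A', rfl⟩ : ∃ A', A = A' + 1 := ⟨A - 1, by omega⟩
    have h := F.smul_mem r (hrel (A' + i) (by omega) u)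
    convert h using 1
    have e1 : (X ^ (A' + 1) * monomial i r : K[X]) = C r * X ^ (A' + i + 1) := by
      rw [← C_mul_X_pow_eq_monomial]
      ring
    rw [e1, derivative_C_mul_X_pow]
    simp only [map_mul, aeval_C, map_pow, aeval_X, map_natCast, Nat.add_sub_cancel, Algebra.smul_def]
    push_cast
    ring

theorem eps_step [CharZero K] (F : Submodule K E) (f z : E) (U : V → E) (M : V → V) (D A : ℕ)
    (hD : 1 ≤ D) (hA : 1 ≤ A) {χ : K[X]} (h0 : χ.coeff 0 ≠ 0) (hz : aeval z (X ^ A * χ) = 0)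
    (hrel : ∀ b, A ≤ b + 1 → ∀ u, ((b + 1 : ℕ) : E) * (f * z ^ b * U (M u)) -
      ((D + (b + 1) : ℕ) : E) * (f * z ^ (b + 1) * U u) ∈ F) :
    ∀ b, A ≤ b → ∀ u, f * z ^ b * U u ∈ F := by
  obtain ⟨P, hP1, hP2, hP3⟩ := exists_idem h0 hz
  have hnat : ∀ (k : ℕ) (x : E), k ≠ 0 → (k : E) * x ∈ F → x ∈ F := by
    intro k x hk hx
    have h1 := F.smul_mem ((k : K)⁻¹) hx
    rwa [Algebra.smul_def, ← mul_assoc, ← map_natCast (algebraMap K E), ← map_mul,
      inv_mul_cancel₀ (Nat.cast_ne_zero.mpr hk), map_one, one_mul] at h1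
  have key : ∀ b u, f * (z ^ b * aeval z P) * U u ∈ F := by
    intro b
    induction b with
    | zero =>
      intro u
      have h1 := eps_rel F f z U M D A hA hrel P hP1 u
      rw [hP2] at h1
      apply hnat D _ (by omega)
      have h2 := F.neg_mem h1
      convert h2 using 1
      ring
    | succ b ih =>
      intro u
      have h1 := eps_rel F f z U M D A hA hrel (X ^ (b + 1) * P) (hP1.mul_left _) u
      rw [derivative_mul, derivative_X_pow, map_add, map_mul, map_mul, map_mul, map_mul, hP2,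
        mul_zero, add_zero, aeval_C, map_pow, map_pow, aeval_X, map_natCast,
        Nat.add_sub_cancel] at h1
      apply hnat (D + (b + 1)) _ (by omega)
      have h2 := F.sub_mem (F.smul_mem ((b + 1 : ℕ) : K) (ih (M u))) h1
      convert h2 using 1
      rw [Algebra.smul_def, map_natCast]
      push_cast
      ring
  intro b hb u
  have h1 := key b u
  rwa [mul_comm (z ^ b), hP3 b hb] at h1

end abstract

open MvPolynomial
open Pool.Agent.W515.SLP (AnnP Deg annP_zero annP_of_gt annP_of_homog lin)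
open H503R3.QCI (Homog NZD Reg isSocleDegree_ci gr mem_gr comp_mul comp_mul_of_lt homog_span)
open TH130CI
open Pool.Agent.Y204.LF (OpenC reg_prefix)
open Pool.Agent.Q8.GC

variable {K : Type*} [Field K] [CharZero K] {N : ℕ} {a : Fin N → MvPolynomial (Fin (N + 1)) K}
  {e : Fin N → ℕ} (ha : ∀ i, (a i).IsHomogeneous (e i)) (he : ∀ i, 1 ≤ e i) (hreg : Reg a)
  {f : MvPolynomial (Fin (N + 1)) K} {d : ℕ} (hf : f.IsHomogeneous d)
  (hfJ : NZD (Ideal.span (Set.range a)) f)
  {S : Set (Fin (N + 1) → K)} (hS : OpenC S)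
  (hSJ : ∀ q ∈ S, NZD (Ideal.span (Set.range a)) (lin q))

include ha he hreg hf hS hSJ in
theorem step_nil {m : Fin (N + 1) → MvPolynomial (Fin (N + 1)) K} {D A : ℕ} (hD : 1 ≤ D)
    (hDd : d < ∑ i, (e i - 1) + D) (hA1 : 1 ≤ A)
    (hA : Module.finrank K (homogeneousSubmodule (Fin (N + 1)) K (∑ i, (e i - 1))) ≤ A)
    (h : ∀ b, A ≤ b → ∀ q ∈ S, f * lin (vl q m) ^ b ∈ Jc (Ideal.span (Set.range a)) q (D + b)) :
    ∀ b, A ≤ b → ∀ q ∈ S,
      f * lin (vl q m) ^ b ∈ Jc (Ideal.span (Set.range a)) q (D + 1 + b) := by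
  have hJ := homog_J ha
  intro b hb q hq
  have hfin := finite_E ha he hreg (hSJ q hq)
  obtain ⟨χ, h0, hz⟩ := exists_chi (K := K)
    (Ideal.Quotient.mk (J1 (Ideal.span (Set.range a)) q) (lin (vl q m)))
    ((finrank_E ha he hreg (hSJ q hq)).trans hA)
  have h1 := eps_step (FF (Ideal.span (Set.range a)) q d D)
    (Ideal.Quotient.mk (J1 (Ideal.span (Set.range a)) q) f) _
    (fun u : Fin (N + 1) → K => Ideal.Quotient.mk (J1 (Ideal.span (Set.range a)) q) (lin u))
    (fun u => MM q m u) D A hD hA1 h0 hz (by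
      intro b hb u
      have h2 := rel hJ hS hq (hSJ q hq) hfin hf (h (b + 1) hb) u
      rw [← FF_shift hJ d D (b + 2)]
      refine mem_FF.mpr ⟨_, h2, ?_, ?_⟩
      · apply IsHomogeneous.sub
        · have h3 := ((lin_homog q).mul ((hom_fp hf (vl q m) b).mul (lin_homog (MM q m u))))
          rw [show 1 + (d + b + 1) = d + (b + 2) by omega] at h3
          have h4 : ((b + 1 : ℕ) : MvPolynomial (Fin (N + 1)) K) = C ((b + 1 : ℕ) : K) :=
            (map_natCast C _).symm
          rw [h4]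
          exact h3.C_mul _
        · have h3 := ((hom_fp hf (vl q m) (b + 1)).mul (lin_homog u))
          rw [show d + (b + 1) + 1 = d + (b + 2) by omega] at h3
          have h4 : ((D + (b + 1) : ℕ) : MvPolynomial (Fin (N + 1)) K) =
            C ((D + (b + 1) : ℕ) : K) := (map_natCast C _).symm
          rw [h4]
          exact h3.C_mul _
      · simp only [map_sub, map_mul, map_pow, map_natCast, mk_q, one_mul]) b hb
  apply soc_lin ha he hreg (hSJ q hq) (hom_fp hf _ _) (by omega)
  intro u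
  apply mem_of_FF hJ (hSJ q hq) (m := d + (b + 1))
  · have h3 := (lin_homog u).mul (hom_fp hf (vl q m) b)
    rwa [show 1 + (d + b) = d + (b + 1) by omega] at h3
  · have h2 := h1 u
    rw [show D + 1 + b = D + (b + 1) by omega, FF_shift hJ]
    convert h2 using 1
    simp only [map_mul, map_pow]
    ring

include ha he hreg hf hfJ hS hSJ in
/-- **Nilpotency.** -/
theorem nilN {k : ℕ} (hk : 2 ≤ k) (hkd : d + 3 ≤ ∑ i, (e i - 1) + k)
    {m : Fin (N + 1) → MvPolynomial (Fin (N + 1)) K}
    (h : ∀ q ∈ S, f * lin (vl q m) ∈ Jc (Ideal.span (Set.range a)) q k) :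
    ∃ A, ∀ q ∈ S, lin (vl q m) ^ A ∈ Ideal.span (Set.range a) := by
  have hJ := homog_J ha
  set A := Module.finrank K (homogeneousSubmodule (Fin (N + 1)) K (∑ i, (e i - 1))) + 1 with hA
  have h1 : ∀ j b, A ≤ b → ∀ q ∈ S,
      f * lin (vl q m) ^ b ∈ Jc (Ideal.span (Set.range a)) q (k - 1 + j + b) := by
    intro j
    induction j with
    | zero =>
      intro b hb q hq
      obtain ⟨b', rfl⟩ : ∃ b', b = b' + 1 := ⟨b - 1, by omega⟩
      have h2 := gnN ha he hreg hf hS hSJ (by omega) hkd h b' q hq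
      rwa [show k - 1 + 0 + (b' + 1) = k + b' by omega]
    | succ j ih =>
      intro b hb q hq
      have h2 := step_nil ha he hreg hf hS hSJ (D := k - 1 + j) (A := A) (m := m) (by omega)
        (by omega) (by omega) (by omega) ih b hb q hq
      rwa [show k - 1 + j + 1 + b = k - 1 + (j + 1) + b by omega] at h2
  refine ⟨A, fun q hq => ?_⟩
  apply hfJ
  apply mem_of_Jc hJ (hom_fp hf (vl q m) A) (c := k - 1 + (d + 1) + A) (by omega)
  exact h1 (d + 1) A le_rfl q hq

end Pool.Agent.Q8.GE
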