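import Pool.Agent.Q8.GE.Nil

/-!
The choice of a general point.
-/

open MvPolynomial
open Pool.Agent.W515.SLP (AnnP Deg annP_zero annP_of_gt annP_of_homog lin)
open H503R3.QCI (Homog NZD Reg isSocleDegree_ci gr mem_gr comp_mul comp_mul_of_lt homog_span)
open TH130CI
open Pool.Agent.Y204.LF (OpenC reg_prefix)

namespace Pool.Agent.Q8.GE

open Pool.Agent.Q8.GC

variable {K : Type*} [Field K] {n : ℕ}

lemma openC_eval {S : Set (Fin n → K)} (hS : OpenC S) (P : MvPolynomial (Fin n) K) :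
    OpenC {q | q ∈ S ∧ eval q P ≠ 0} := by
  rintro q ⟨hq, hqP⟩ u
  have h0 : ln q u P ≠ 0 := by
    intro h
    apply hqP
    rw [← ln_coeff_zero q u P, h, Polynomial.coeff_zero]
  refine ((hS q hq u).union (Polynomial.finite_setOfPred_isRoot h0)).subset ?_
  intro t ht
  by_cases h1 : q + t • u ∈ S
  · right
    by_contra h2
    apply ht
    refine ⟨h1, ?_⟩
    rw [← ln_eval]
    exact h2
  · exact Or.inl h1

lemma openC_inter {S T : Set (Fin n → K)} (hS : OpenC S) (hT : OpenC T) : OpenC (S ∩ T) := by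
  rintro q ⟨h1, h2⟩ u
  refine ((hS q h1 u).union (hT q h2 u)).subset ?_
  intro t ht
  by_contra hcon
  rw [Set.mem_union, not_or] at hcon
  apply ht
  exact ⟨by_contra fun h => hcon.1 h, by_contra fun h => hcon.2 h⟩

lemma nonempty_inter [Infinite K] {S T : Set (Fin n → K)} (hS : OpenC S) (hT : OpenC T)
    (h1 : S.Nonempty) (h2 : T.Nonempty) : (S ∩ T).Nonempty := by
  obtain ⟨q1, hq1⟩ := h1
  obtain ⟨q2, hq2⟩ := h2
  have h3 := hS q1 hq1 (q2 - q1)
  have h4 := hT q2 hq2 (q1 - q2)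
  have h5 : {t : K | q1 + t • (q2 - q1) ∉ T}.Finite := by
    refine (h4.image fun t => 1 - t).subset ?_
    intro t ht
    refine ⟨1 - t, ?_, by ring⟩
    change q2 + (1 - t) • (q1 - q2) ∉ T
    have e : q2 + (1 - t) • (q1 - q2) = q1 + t • (q2 - q1) := by
      ext i
      simp only [Pi.add_apply, Pi.smul_apply, Pi.sub_apply, smul_eq_mul]
      ring
    rw [e]
    exact ht
  obtain ⟨t, ht⟩ := (h3.union h5).exists_notMem
  rw [Set.mem_union, not_or] at ht
  exact ⟨_, by_contra fun h => ht.1 h, by_contra fun h => ht.2 h⟩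

/-- **The general point.** -/
theorem exists_pointN [Infinite K] {J : Ideal (MvPolynomial (Fin n) K)} (hJ : Homog J)
    {S : Set (Fin n → K)} (hS : OpenC S)
    (hSJ : ∀ q ∈ S, NZD J (lin q))
    (hfin : ∀ q ∈ S, Module.Finite K (MvPolynomial (Fin n) K ⧸ J1 J q)) (hne : S.Nonempty)
    {f : MvPolynomial (Fin n) K} {d : ℕ} (hf : f.IsHomogeneous d)
    {m : Fin n → MvPolynomial (Fin n) K} {j0 : Fin n} (hj0 : m j0 ≠ 0) (B : ℕ) :
    ∃ (q : Fin n → K) (S' : Set (Fin n → K)), q ∈ S' ∧ S' ⊆ S ∧ OpenC S' ∧ eval q (m j0) ≠ 0 ∧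
      ∀ b c, b ≤ B → c ≤ B → f * lin (vl q m) ^ b ∈ Jc J q c →
        ∀ q' ∈ S', f * lin (vl q' m) ^ b ∈ Jc J q' c := by
  classical
  set S2 : Set (Fin n → K) := {q | q ∈ S ∧ eval q (m j0) ≠ 0} with hS2
  have hS2o : OpenC S2 := openC_eval hS _
  have hS2J : ∀ q ∈ S2, NZD J (lin q) := fun q hq => hSJ q hq.1
  have hS2f : ∀ q ∈ S2, Module.Finite K (MvPolynomial (Fin n) K ⧸ J1 J q) :=
    fun q hq => hfin q hq.1
  have hS2ne : S2.Nonempty := by
    obtain ⟨q, hq, hq2⟩ := exists_generic hS hne hj0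
    exact ⟨q, hq, hq2⟩
  set Bx : Finset (ℕ × ℕ) := Finset.range (B + 1) ×ˢ Finset.range (B + 1) with hBx
  let nm : (Fin n → K) → ℕ × ℕ → Prop := fun q x => f * lin (vl q m) ^ x.1 ∉ Jc J q x.2
  obtain ⟨q, hqS, hq⟩ : ∃ q ∈ S2, ∀ q' ∈ S2, (Bx.filter (nm q')).card ≤ (Bx.filter (nm q)).card := by
    have hbdd : BddAbove ((fun q : Fin n → K => (Bx.filter (nm q)).card) '' S2) :=
      ⟨Bx.card, by rintro _ ⟨q, _, rfl⟩; exact Finset.card_filter_le _ _⟩
    obtain ⟨q, hqS, hq⟩ := Nat.sSup_mem (hS2ne.image _) hbdd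
    refine ⟨q, hqS, fun q' hq' => ?_⟩
    have h1 := le_csSup hbdd ⟨q', hq', rfl⟩
    rw [← hq] at h1
    exact h1
  refine ⟨q, {q' | q' ∈ S2 ∧ ∀ x ∈ Bx, nm q x → nm q' x}, ⟨hqS, fun _ _ h => h⟩,
    fun q' hq' => hq'.1.1, ?_, hqS.2, ?_⟩
  · rintro q' ⟨hq', hx⟩ u
    have h1 : ((⋃ x ∈ Bx.filter (nm q), {t : K | q' + t • u ∉ {q | q ∈ S2 ∧ nm q x}}) ∪
        {t : K | q' + t • u ∉ S2}).Finite := by
      refine Set.Finite.union (Set.Finite.biUnion (Finset.finite_toSet _) fun x hxB => ?_)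
        (hS2o q' hq' u)
      have hxB' : x ∈ Bx.filter (nm q) := hxB
      rw [Finset.mem_filter] at hxB'
      exact open_notMem hJ hS2o hS2J hS2f hf m x.1 x.2 q' ⟨hq', hx x hxB'.1 hxB'.2⟩ u
    refine h1.subset ?_
    intro t ht
    by_contra hcon
    rw [Set.mem_union, not_or] at hcon
    obtain ⟨hcon, hcon2⟩ := hcon
    have hcon3 : q' + t • u ∈ S2 := by_contra fun h => hcon2 h
    apply ht
    refine ⟨hcon3, fun x hxB hnx => ?_⟩
    simp only [Set.mem_iUnion, not_exists] at hcon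
    have h2 := hcon x (Finset.mem_coe.mpr (Finset.mem_filter.mpr ⟨hxB, hnx⟩))
    have h3 : q' + t • u ∈ {q | q ∈ S2 ∧ nm q x} := by_contra fun h => h2 h
    exact h3.2
  · rintro b c hb hc hmem q' ⟨hq', hx⟩
    by_contra hcon
    have hxB : (b, c) ∈ Bx := by
      rw [hBx, Finset.mem_product, Finset.mem_range, Finset.mem_range]
      exact ⟨Nat.lt_succ_of_le hb, Nat.lt_succ_of_le hc⟩
    have h1 : Bx.filter (nm q) ⊂ Bx.filter (nm q') := by
      rw [Finset.ssubset_iff_of_subset]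
      · refine ⟨(b, c), Finset.mem_filter.mpr ⟨hxB, hcon⟩, ?_⟩
        intro h
        exact (Finset.mem_filter.mp h).2 hmem
      · intro x hx'
        rw [Finset.mem_filter] at hx' ⊢
        exact ⟨hx'.1, hx x hx'.1 hx'.2⟩
    exact absurd (hq q' hq') (not_le.mpr (Finset.card_lt_card h1))

/-- the derivative of a family in a subspace lies in the subspace -/
theorem MM_mem_of_open [Infinite K] {S : Set (Fin n → K)} (hS : OpenC S)
    {m : Fin n → MvPolynomial (Fin n) K} (T : Submodule K (Fin n → K))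
    (h : ∀ q ∈ S, vl q m ∈ T) {q : Fin n → K} (hq : q ∈ S) (u : Fin n → K) : MM q m u ∈ T := by
  classical
  by_contra hcon
  obtain ⟨χ, hχ⟩ : ∃ χ : Module.Dual K ((Fin n → K) ⧸ T),
      χ (Submodule.Quotient.mk (MM q m u)) ≠ 0 := by
    by_contra hc
    push Not at hc
    apply hcon
    rw [← Submodule.Quotient.mk_eq_zero]
    exact (Module.forall_dual_apply_eq_zero_iff K _).mp hc
  let ψ : (Fin n → K) →ₗ[K] K := χ ∘ₗ T.mkQ
  have hψ : ∀ z : Fin n → K, ψ z = ∑ j, z j * ψ (Pi.single j 1) := by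
    intro z
    conv_lhs => rw [← Finset.univ_sum_single z, map_sum]
    refine Finset.sum_congr rfl fun j _ => ?_
    have h1 : (Pi.single j (z j) : Fin n → K) = z j • Pi.single j 1 := by
      rw [← Pi.single_smul, smul_eq_mul, mul_one]
    rw [h1, map_smul, smul_eq_mul]
  let P : Polynomial K := ∑ j, ln q u (m j) * Polynomial.C (ψ (Pi.single j 1))
  have hP0 : P = 0 := by
    apply Polynomial.eq_zero_of_infinite_isRoot
    have hinf : {t : K | q + t • u ∈ S}.Infinite := by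
      intro h2
      apply Set.infinite_univ (α := K)
      refine ((hS q hq u).union h2).subset fun t _ => ?_
      by_cases h : q + t • u ∈ S
      · exact Or.inr h
      · exact Or.inl h
    refine hinf.mono fun t ht => ?_
    change P.eval t = 0
    have h1 : P.eval t = ψ (vl (q + t • u) m) := by
      rw [hψ]
      simp only [P, Polynomial.eval_finsetSum, Polynomial.eval_mul, Polynomial.eval_C, ln_eval]
      rfl
    rw [h1]
    change χ (Submodule.Quotient.mk _) = 0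
    rw [(Submodule.Quotient.mk_eq_zero T).mpr (h _ ht), map_zero]
  apply hχ
  have h2 : P.coeff 1 = ψ (MM q m u) := by
    rw [hψ]
    simp only [P, Polynomial.finsetSum_coeff, Polynomial.coeff_mul_C, ln_coeff_one]
    rfl
  rw [hP0, Polynomial.coeff_zero] at h2
  exact h2.symm

end Pool.Agent.Q8.GE
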