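import Pool.Agent.Q8.GE.Filt

/-!
The derivative of the relations `f p(q) ^ b ∈ J + (q ^ c)`, and the openness of the opposite
condition.
-/

open MvPolynomial
open Pool.Agent.W515.SLP (AnnP Deg annP_zero annP_of_gt annP_of_homog lin)
open H503R3.QCI (Homog NZD Reg isSocleDegree_ci gr mem_gr comp_mul comp_mul_of_lt)
open TH130CI
open Pool.Agent.Y204.LF (OpenC)

namespace Pool.Agent.Q8.GE

open Pool.Agent.Q8.GC

variable {K : Type*} [Field K] {n : ℕ}

/-- a polynomial on a line -/
noncomputable def ln (q u : Fin n → K) (P : MvPolynomial (Fin n) K) : Polynomial K :=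
  MvPolynomial.aeval (fun i => Polynomial.C (q i) + Polynomial.X * Polynomial.C (u i)) P

lemma ln_eval (q u : Fin n → K) (P : MvPolynomial (Fin n) K) (t : K) :
    (ln q u P).eval t = eval (q + t • u) P := by
  have h1 : (Polynomial.aeval t).comp (MvPolynomial.aeval
      (fun i => Polynomial.C (q i) + Polynomial.X * Polynomial.C (u i))) =
      (MvPolynomial.aeval (q + t • u) : MvPolynomial (Fin n) K →ₐ[K] K) := by
    apply MvPolynomial.algHom_ext
    intro i
    simp only [AlgHom.coe_comp, Function.comp_apply, aeval_X, map_add, map_mul, Polynomial.aeval_C,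
      Polynomial.aeval_X, Pi.add_apply, Pi.smul_apply, smul_eq_mul, Algebra.algebraMap_self,
      RingHom.id_apply]
  have h2 := AlgHom.congr_fun h1 P
  rw [AlgHom.comp_apply] at h2
  rw [← Polynomial.coe_aeval_eq_eval, ← MvPolynomial.coe_aeval_eq_eval]
  exact h2

lemma ln_coeff_zero (q u : Fin n → K) (P : MvPolynomial (Fin n) K) :
    (ln q u P).coeff 0 = eval q P := by
  rw [Polynomial.coeff_zero_eq_eval_zero, ln_eval, zero_smul, add_zero]

lemma ln_coeff_one (q u : Fin n → K) (P : MvPolynomial (Fin n) K) :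
    (ln q u P).coeff 1 = ∑ i, u i * eval q (pderiv i P) := by
  classical
  induction P using MvPolynomial.induction_on with
  | C a =>
    have h : ln q u (C a) = Polynomial.C a := by
      rw [ln, aeval_C]
      rfl
    rw [h, Polynomial.coeff_C_succ]
    simp only [pderiv_C, map_zero, mul_zero, Finset.sum_const_zero]
  | add p r hp hr =>
    have h : ln q u (p + r) = ln q u p + ln q u r := map_add _ _ _
    rw [h, Polynomial.coeff_add, hp, hr, ← Finset.sum_add_distrib]
    refine Finset.sum_congr rfl fun i _ => ?_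
    rw [map_add, map_add, mul_add]
  | mul_X p i hp =>
    have h : ln q u (p * X i) = ln q u p * (Polynomial.C (q i) + Polynomial.X *
        Polynomial.C (u i)) := by
      rw [ln, map_mul, aeval_X]
      rfl
    rw [h, Polynomial.mul_coeff_one, ln_coeff_zero, hp]
    have e0 : (Polynomial.C (q i) + Polynomial.X * Polynomial.C (u i)).coeff 0 = q i := by simp
    have e1 : (Polynomial.C (q i) + Polynomial.X * Polynomial.C (u i)).coeff 1 = u i := by
      rw [Polynomial.coeff_add, Polynomial.coeff_C_succ, zero_add, Polynomial.coeff_X_mul,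
        Polynomial.coeff_C_zero]
    rw [e0, e1]
    simp only [Derivation.leibniz, smul_eq_mul, map_add, map_mul, eval_X, mul_add,
      Finset.sum_add_distrib]
    have hs : ∑ x, u x * (eval q p * eval q (pderiv x (X i : MvPolynomial (Fin n) K))) =
        u i * eval q p := by
      rw [Finset.sum_eq_single i]
      · rw [pderiv_X_self, map_one, mul_one]
      · intro j _ hj
        rw [pderiv_X_of_ne (Ne.symm hj), map_zero, mul_zero, mul_zero]
      · intro h'
        exact absurd (Finset.mem_univ i) h'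
    rw [hs, Finset.sum_mul]
    congr 1
    · ring
    · refine Finset.sum_congr rfl fun j _ => ?_
      ring

variable (J : Ideal (MvPolynomial (Fin n) K))

/-- the moving linear form on a line -/
noncomputable def pt (q u : Fin n → K) (m : Fin n → MvPolynomial (Fin n) K) :
    Polynomial (MvPolynomial (Fin n) K ⧸ J1 J q) :=
  ∑ j, Polynomial.C (Ideal.Quotient.mk (J1 J q) (X j)) *
    (ln q u (m j)).map (algebraMap K (MvPolynomial (Fin n) K ⧸ J1 J q))

variable {J}

lemma mk_lin (q z : Fin n → K) : Ideal.Quotient.mk (J1 J q) (lin z) =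
    ∑ j, Ideal.Quotient.mk (J1 J q) (X j) * algebraMap K _ (z j) := by
  rw [lin, map_sum]
  refine Finset.sum_congr rfl fun j _ => ?_
  rw [map_mul, mul_comm]
  rfl

lemma pt_eval (q u : Fin n → K) (m : Fin n → MvPolynomial (Fin n) K) (t : K) :
    (pt J q u m).eval (algebraMap K _ t) = Ideal.Quotient.mk (J1 J q) (lin (vl (q + t • u) m)) := by
  rw [pt, Polynomial.eval_finsetSum, mk_lin]
  refine Finset.sum_congr rfl fun j _ => ?_
  rw [Polynomial.eval_mul, Polynomial.eval_C, Polynomial.eval_map, Polynomial.eval₂_at_apply,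
    ln_eval]
  rfl

lemma pt_coeff_zero (q u : Fin n → K) (m : Fin n → MvPolynomial (Fin n) K) :
    (pt J q u m).coeff 0 = Ideal.Quotient.mk (J1 J q) (lin (vl q m)) := by
  rw [pt, Polynomial.finsetSum_coeff, mk_lin]
  refine Finset.sum_congr rfl fun j _ => ?_
  rw [Polynomial.coeff_C_mul, Polynomial.coeff_map, ln_coeff_zero]
  rfl

lemma pt_coeff_one (q u : Fin n → K) (m : Fin n → MvPolynomial (Fin n) K) :
    (pt J q u m).coeff 1 = Ideal.Quotient.mk (J1 J q) (lin (MM q m u)) := by
  rw [pt, Polynomial.finsetSum_coeff, mk_lin]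
  refine Finset.sum_congr rfl fun j _ => ?_
  rw [Polynomial.coeff_C_mul, Polynomial.coeff_map, ln_coeff_one]
  rfl

lemma coeff_zero_pow {E : Type*} [CommRing E] (p : Polynomial E) (b : ℕ) :
    (p ^ b).coeff 0 = p.coeff 0 ^ b := by
  rw [← Polynomial.constantCoeff_apply, map_pow, Polynomial.constantCoeff_apply]

lemma coeff_one_pow {E : Type*} [CommRing E] (p : Polynomial E) (b : ℕ) :
    (p ^ (b + 1)).coeff 1 = ((b + 1 : ℕ) : E) * (p.coeff 0 ^ b * p.coeff 1) := by
  induction b with
  | zero => simp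
  | succ b ih =>
    rw [pow_succ, Polynomial.mul_coeff_one, coeff_zero_pow, ih]
    push_cast
    ring

section

variable [CharZero K] {S : Set (Fin n → K)}

lemma infinite_line (hS : OpenC S) {q : Fin n → K} (hq : q ∈ S) (u : Fin n → K) :
    {t : K | q + t • u ∈ S}.Infinite := by
  have h1 := hS q hq u
  intro h2
  apply Set.infinite_univ (α := K)
  refine (h1.union h2).subset fun t _ => ?_
  by_cases h : q + t • u ∈ S
  · exact Or.inr h
  · exact Or.inl h

omit [CharZero K] in
lemma hom_fp {f : MvPolynomial (Fin n) K} {d : ℕ} (hf : f.IsHomogeneous d) (p : Fin n → K) (b : ℕ) :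
    (f * lin p ^ b).IsHomogeneous (d + b) := by
  have := hf.mul ((lin_homog p).pow b)
  rwa [one_mul] at this

/-- **The derivative of a relation.** -/
theorem rel (hJ : Homog J) (hS : OpenC S) {q : Fin n → K} (hq : q ∈ S) (hqJ : NZD J (lin q))
    (hfin : Module.Finite K (MvPolynomial (Fin n) K ⧸ J1 J q)) {f : MvPolynomial (Fin n) K}
    {d : ℕ} (hf : f.IsHomogeneous d) {m : Fin n → MvPolynomial (Fin n) K} {b c : ℕ}
    (h : ∀ q ∈ S, f * lin (vl q m) ^ (b + 1) ∈ Jc J q c) (u : Fin n → K) :
    ((b + 1 : ℕ) : MvPolynomial (Fin n) K) * (lin q * (f * lin (vl q m) ^ b * lin (MM q m u))) -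
      (c : MvPolynomial (Fin n) K) * (f * lin (vl q m) ^ (b + 1) * lin u) ∈ Jc J q (c + 1) := by
  have h1 := (line (J := J) (q := q) (u := u) hJ hfin (m := d + (b + 1)) (c := c)
    (Y := Polynomial.C (Ideal.Quotient.mk (J1 J q) f) * pt J q u m ^ (b + 1))
    (infinite_line hS hq u) (by
      intro t ht
      refine ⟨f * lin (vl (q + t • u) m) ^ (b + 1), hom_fp hf _ _, h _ ht, ?_⟩
      rw [Polynomial.eval_mul, Polynomial.eval_C, Polynomial.eval_pow, pt_eval, map_mul,
        map_pow])).2
  rw [Polynomial.coeff_C_mul, Polynomial.coeff_C_mul, coeff_zero_pow, coeff_one_pow, pt_coeff_zero,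
    pt_coeff_one] at h1
  have h2 := FF_succ _ _ h1
  apply mem_of_FF hJ hqJ (m := d + (b + 1) + 1)
  · apply IsHomogeneous.sub
    · have h3 := ((lin_homog q).mul ((hom_fp hf (vl q m) b).mul (lin_homog (MM q m u))))
      rw [show 1 + (d + b + 1) = d + (b + 1) + 1 by omega] at h3
      have h4 : ((b + 1 : ℕ) : MvPolynomial (Fin n) K) = C ((b + 1 : ℕ) : K) := (map_natCast C _).symm
      rw [h4]
      exact h3.C_mul _
    · have h3 := ((hom_fp hf (vl q m) (b + 1)).mul (lin_homog u))
      have h4 : (c : MvPolynomial (Fin n) K) = C (c : K) := (map_natCast C _).symm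
      rw [h4]
      exact h3.C_mul _
  · convert h2 using 1
    simp only [map_sub, map_mul, map_pow, map_natCast, mk_q, one_mul]
    ring

theorem rel0 (hJ : Homog J) (hS : OpenC S) {q : Fin n → K} (hq : q ∈ S) (hqJ : NZD J (lin q))
    (hfin : Module.Finite K (MvPolynomial (Fin n) K ⧸ J1 J q)) {f : MvPolynomial (Fin n) K}
    {d : ℕ} (hf : f.IsHomogeneous d) {c : ℕ} (hc : c ≠ 0)
    (h : ∀ q ∈ S, f ∈ Jc J q c) (u : Fin n → K) : lin u * f ∈ Jc J q (c + 1) := by
  have h1 := (line (J := J) (q := q) (u := u) hJ hfin (m := d) (c := c)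
    (Y := Polynomial.C (Ideal.Quotient.mk (J1 J q) f))
    (infinite_line hS hq u) (by
      intro t ht
      exact ⟨f, hf, h _ ht, by rw [Polynomial.eval_C]⟩)).2
  rw [Polynomial.coeff_C_succ, Polynomial.coeff_C_zero, zero_sub] at h1
  have h2 := FF_succ _ _ ((FF J q d c).neg_mem h1)
  rw [neg_neg] at h2
  apply nat_mem (N := c) hc
  apply mem_of_FF hJ hqJ (m := d + 1)
  · have h4 : (c : MvPolynomial (Fin n) K) = C (c : K) := (map_natCast C _).symm
    rw [h4, mul_comm (lin u)]
    exact (hf.mul (lin_homog u)).C_mul _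
  · convert h2 using 1
    rw [map_mul, map_mul, map_natCast]

omit [CharZero K] in
/-- the condition `f p(q) ^ b ∉ J + (q ^ c)` is open -/
theorem open_notMem (hJ : Homog J) (hS : OpenC S) (hSJ : ∀ q ∈ S, NZD J (lin q))
    (hfin : ∀ q ∈ S, Module.Finite K (MvPolynomial (Fin n) K ⧸ J1 J q))
    {f : MvPolynomial (Fin n) K} {d : ℕ} (hf : f.IsHomogeneous d)
    (m : Fin n → MvPolynomial (Fin n) K) (b c : ℕ) :
    OpenC {q | q ∈ S ∧ f * lin (vl q m) ^ b ∉ Jc J q c} := by
  rintro q ⟨hq, hqf⟩ u
  by_contra hinf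
  have h0 : {t : K | f * lin (vl (q + t • u) m) ^ b ∈ Jc J (q + t • u) c}.Infinite := by
    intro hfin'
    apply hinf
    refine ((hS q hq u).union hfin').subset ?_
    intro t ht
    by_cases h1 : q + t • u ∈ S
    · right
      by_contra h2
      exact ht ⟨h1, h2⟩
    · exact Or.inl h1
  apply hqf
  have h1 := (line (J := J) (q := q) (u := u) hJ (hfin q hq) (m := d + b) (c := c)
    (Y := Polynomial.C (Ideal.Quotient.mk (J1 J q) f) * pt J q u m ^ b) h0 (by
      intro t ht
      refine ⟨f * lin (vl (q + t • u) m) ^ b, hom_fp hf _ _, ht, ?_⟩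
      rw [Polynomial.eval_mul, Polynomial.eval_C, Polynomial.eval_pow, pt_eval, map_mul,
        map_pow])).1
  rw [Polynomial.coeff_C_mul, coeff_zero_pow, pt_coeff_zero, ← map_pow, ← map_mul] at h1
  exact mem_of_FF hJ (hSJ q hq) (hom_fp hf _ _) h1

end

end Pool.Agent.Q8.GE
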